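import Pool.Agent.Helper68.DS.Basic

set_option autoImplicit false

/-!
Finite monoids all of whose regular products of idempotents are idempotent.
-/

namespace Helper68.EDA

open Helper68.DS

variable {M : Type} [Monoid M]

/-- Every regular product of idempotents is idempotent. -/
def IsEDA (M : Type) [Monoid M] : Prop :=
  ∀ x ∈ Submonoid.closure {e : M | e * e = e}, (∃ z, x * z * x = x) → x * x = x

/-- If `e` is `L`-equivalent to `g` and `g` is `R`-equivalent to `f` then `e f e = e`. -/
def Pat (M : Type) [Monoid M] : Prop :=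
  ∀ e g f : M, e * e = e → g * g = g → f * f = f → e * g = e → g * e = g → g * f = f →
    f * g = g → e * f * e = e

lemma IsEDA.pat (h : IsEDA M) : Pat M := by
  intro e g f he hg hf h1 h2 h3 h4
  have hx : e * f ∈ Submonoid.closure {e : M | e * e = e} :=
    Submonoid.mul_mem _ (Submonoid.subset_closure he) (Submonoid.subset_closure hf)
  have h5 := h (e * f) hx ⟨g, by
    calc e * f * g * (e * f) = e * (f * g) * (e * f) := by simp only [mul_assoc]
      _ = e * g * e * f := by rw [h4]; simp only [mul_assoc]
      _ = e * f := by rw [h1, he]⟩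
  calc e * f * e = e * f * (e * g) := by rw [h1]
    _ = e * f * (e * (f * g)) := by rw [h4]
    _ = (e * f * (e * f)) * g := by simp only [mul_assoc]
    _ = e * f * g := by rw [h5]
    _ = e * (f * g) := by rw [mul_assoc]
    _ = e := by rw [h4, h1]

lemma IsEDA.pat_op (h : IsEDA M) : Pat Mᵐᵒᵖ := by
  intro e' g' f' he' hg' hf' h1' h2' h3' h4'
  obtain ⟨e, rfl⟩ := MulOpposite.op_surjective e'
  obtain ⟨g, rfl⟩ := MulOpposite.op_surjective g'
  obtain ⟨f, rfl⟩ := MulOpposite.op_surjective f'
  have he : e * e = e := MulOpposite.op_injective he'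
  have hf : f * f = f := MulOpposite.op_injective hf'
  have h1 : g * e = e := MulOpposite.op_injective h1'
  have h2 : e * g = g := MulOpposite.op_injective h2'
  have h3 : f * g = f := MulOpposite.op_injective h3'
  have h4 : g * f = g := MulOpposite.op_injective h4'
  have hx : f * e ∈ Submonoid.closure {e : M | e * e = e} :=
    Submonoid.mul_mem _ (Submonoid.subset_closure hf) (Submonoid.subset_closure he)
  have h5 := h (f * e) hx ⟨g, by
    calc f * e * g * (f * e) = f * (e * g) * (f * e) := by simp only [mul_assoc]
      _ = f * g * f * e := by rw [h2]; simp only [mul_assoc]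
      _ = f * e := by rw [h3, hf]⟩
  have h6 : e * f * e = e := by
    calc e * f * e = (g * e) * f * e := by rw [h1]
      _ = (g * f) * e * f * e := by rw [h4]
      _ = g * (f * e * (f * e)) := by simp only [mul_assoc]
      _ = g * (f * e) := by rw [h5]
      _ = (g * f) * e := by rw [mul_assoc]
      _ = e := by rw [h4, h1]
  apply MulOpposite.unop_injective
  change e * (f * e) = e
  rw [← mul_assoc, h6]

lemma mid [Finite M] {y w : M} (h1 : JLe y (y * w)) (h2 : JLe w (y * w)) :
    ∃ d v, w * d = v * y ∧ (w * d) * w = w ∧ y * (w * d) = y := by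
  obtain ⟨d, hd⟩ := stabR h1
  obtain ⟨v, hv⟩ := stabL h2
  have h3 : w * d = v * y := by
    calc w * d = v * (y * w) * d := by rw [hv]
      _ = v * (y * w * d) := by simp only [mul_assoc]
      _ = v * y := by rw [hd]
  refine ⟨d, v, h3, ?_, ?_⟩
  · rw [h3, mul_assoc, hv]
  · rw [← mul_assoc, hd]

/-- The key lemma: two elements of a `J`-class which agree on one element of the `J`-class agree
everywhere. -/
lemma keyK [Finite M] (hP : Pat M) {y y' w z : M} (h0 : y * w = y' * w) (h1 : JLe y (y * w))
    (h2 : JLe w (y * w)) (h3 : JLe y' (y * w)) (h4 : JLe y (y * z)) (h5 : JLe z (y * z)) :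
    y' * z = y * z := by
  obtain ⟨d, v, hg, hgw, hyg⟩ := mid h1 h2
  obtain ⟨d', v', hg', hgw', hyg'⟩ := mid (y := y') (w := w) (by rw [← h0]; exact h3)
    (by rw [← h0]; exact h2)
  obtain ⟨d'', v'', hk, hkz, hyk⟩ := mid h4 h5
  have e1 : (z * d'') * (z * d'') = z * d'' := by rw [← mul_assoc, hkz]
  have e2 : (w * d) * (w * d) = w * d := by rw [← mul_assoc, hgw]
  have e3 : (w * d') * (w * d') = w * d' := by rw [← mul_assoc, hgw']
  have e4 : (z * d'') * (w * d) = z * d'' := by
    rw [hk, mul_assoc, hyg]
  have e5 : (w * d) * (z * d'') = w * d := by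
    rw [hg, mul_assoc, hyk]
  have e6 : (w * d) * (w * d') = w * d' := by rw [← mul_assoc, hgw]
  have e7 : (w * d') * (w * d) = w * d := by rw [← mul_assoc, hgw']
  have e8 := hP (z * d'') (w * d) (w * d') e1 e2 e3 e4 e5 e6 e7
  have e9 : y' = y * (w * d') := by
    rw [← mul_assoc, h0, mul_assoc, hyg']
  calc y' * z = y * (w * d') * z := by rw [← e9]
    _ = (y * (z * d'')) * (w * d') * ((z * d'') * z) := by rw [hyk, hkz]
    _ = y * ((z * d'') * (w * d') * (z * d'')) * z := by simp only [mul_assoc]
    _ = y * (z * d'') * z := by rw [e8]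
    _ = y * z := by rw [hyk]

lemma Pat.eda [Finite M] (hP : Pat M) : IsEDA M := by
  have key : ∀ a : M, a * a = a → ∀ l : List M, (∀ e ∈ l, e * e = e) → ∀ p : M, JLe p a →
      p * a = a → (∃ d, p * l.prod * d = a) → p * l.prod * a = a := by
    intro a ha l
    induction l with
    | nil => intro _ p _ hpa _; simpa using hpa
    | cons e l ih =>
      intro hl p hp hpa ⟨d, hd⟩
      have he : e * e = e := hl e (by simp)
      have h1 : p * (e * (l.prod * d * a)) = a := by
        calc p * (e * (l.prod * d * a)) = (p * (e * l.prod) * d) * a := by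
              simp only [mul_assoc]
          _ = a := by rw [← List.prod_cons, hd, ha]
      have h2 : p * e * (e * (l.prod * d * a)) = a := by
        calc p * e * (e * (l.prod * d * a)) = p * ((e * e) * (l.prod * d * a)) := by
              simp only [mul_assoc]
          _ = a := by rw [he, h1]
      have h3 : p * e * a = a := by
        have h4 := keyK hP (y := p) (y' := p * e) (w := e * (l.prod * d * a)) (z := a)
          (by rw [h1, h2]) (by rw [h1]; exact hp)
          (by rw [h1]; exact ⟨e * (l.prod * d), 1, by simp only [mul_assoc, mul_one]⟩)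
          (by rw [h1]; exact hp.mul_right e) (by rw [hpa]; exact hp)
          (by rw [hpa]; exact JLe.refl a)
        rw [h4, hpa]
      have h5 := ih (fun e' he' => hl e' (List.mem_cons_of_mem e he')) (p * e) (hp.mul_right e) h3
        ⟨d, by
          rw [List.prod_cons] at hd
          rw [mul_assoc p e l.prod]
          exact hd⟩
      rw [List.prod_cons, ← mul_assoc]
      exact h5
  rintro x hx ⟨z, hz⟩
  obtain ⟨l, hl, rfl⟩ := Submonoid.exists_list_of_mem_closure hx
  have ha : (l.prod * z) * (l.prod * z) = l.prod * z := by rw [← mul_assoc, hz]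
  have h1 := key (l.prod * z) ha l hl (l.prod * z) (JLe.refl _) ha ⟨z, by rw [hz]⟩
  rw [hz] at h1
  calc l.prod * l.prod = l.prod * (l.prod * z * l.prod) := by rw [hz]
    _ = (l.prod * (l.prod * z)) * l.prod := by simp only [mul_assoc]
    _ = l.prod := by rw [h1, hz]

end Helper68.EDA
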