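import Mathlib

set_option autoImplicit false

/-!
Programs of partial injections: near every string there is a string reaching the end of a path
which stays in sets moved bijectively by all letters, except at a few times.
-/

namespace Helper68.EDA

open Finset

variable {Q S : Type}

/-- The state after `k` letters, if the program is still alive. -/
def run (f : ℕ → S → Q → Option Q) (q₀ : Q) (x : ℕ → S) : ℕ → Option Q
  | 0 => some q₀
  | k + 1 => (run f q₀ x k).bind (f k (x k))

lemma run_congr (f : ℕ → S → Q → Option Q) (q₀ : Q) {x y : ℕ → S} : ∀ {k : ℕ},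
    (∀ i < k, x i = y i) → run f q₀ x k = run f q₀ y k := by
  intro k
  induction k with
  | zero => intro _; rfl
  | succ k ih =>
    intro h
    rw [run, run, ih fun i hi => h i (by omega), h k (by omega)]

open Classical in
/-- The number of differences before `k`. -/
noncomputable def hd (x y : ℕ → S) (k : ℕ) : ℕ := ((range k).filter fun i => x i ≠ y i).card

lemma hd_congr {x x' y : ℕ → S} {k : ℕ} (h : ∀ i < k, x i = x' i) : hd x y k = hd x' y k := by
  classical
  unfold hd
  congr 1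
  apply Finset.filter_congr
  intro i hi
  rw [h i (Finset.mem_range.1 hi)]

lemma hd_succ_le (x y : ℕ → S) (k : ℕ) : hd x y (k + 1) ≤ hd x y k + 1 := by
  classical
  unfold hd
  rw [Finset.range_add_one, Finset.filter_insert]
  split_ifs
  · exact Finset.card_insert_le _ _
  · omega

lemma hd_succ_eq {x y : ℕ → S} {k : ℕ} (h : x k = y k) : hd x y (k + 1) = hd x y k := by
  classical
  unfold hd
  rw [Finset.range_add_one, Finset.filter_insert, if_neg (by simp [h])]

section grow

variable (f : ℕ → S → Q → Option Q) (q₀ : Q) (H : ℕ → Set Q) (u : ℕ → S)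

/-- The states of `H` reachable with at most `k` changes. -/
def Rch (k i : ℕ) : Set Q := {q | q ∈ H i ∧ ∃ w, run f q₀ w i = some q ∧ hd w u i ≤ k}

variable {f q₀ H u}

lemma Rch_mono {k k' i : ℕ} (h : k ≤ k') : Rch f q₀ H u k i ⊆ Rch f q₀ H u k' i :=
  fun _ ⟨h1, w, h2, h3⟩ => ⟨h1, w, h2, h3.trans h⟩

lemma Rch_step {k i : ℕ} {q r : Q} (hq : q ∈ Rch f q₀ H u k i) (c : S) (h : f i c q = some r)
    (hr : r ∈ H (i + 1)) : r ∈ Rch f q₀ H u (k + 1) (i + 1) := by
  obtain ⟨-, w, h2, h3⟩ := hq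
  refine ⟨hr, fun j => if j < i then w j else c, ?_, ?_⟩
  · rw [run, run_congr f q₀ (y := w) (fun j hj => by simp [hj]), h2, if_neg (lt_irrefl i)]
    exact h
  · refine (hd_succ_le _ _ _).trans ?_
    rw [hd_congr (x' := w) (fun j hj => by simp [hj])]
    omega

lemma Rch_default {k i : ℕ} {q r : Q} (hq : q ∈ Rch f q₀ H u k i) (h : f i (u i) q = some r)
    (hr : r ∈ H (i + 1)) : r ∈ Rch f q₀ H u k (i + 1) := by
  obtain ⟨-, w, h2, h3⟩ := hq
  refine ⟨hr, fun j => if j < i then w j else u i, ?_, ?_⟩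
  · rw [run, run_congr f q₀ (y := w) (fun j hj => by simp [hj]), h2, if_neg (lt_irrefl i)]
    exact h
  · rw [hd_succ_eq (by simp), hd_congr (x' := w) (fun j hj => by simp [hj])]
    exact h3

variable [Fintype Q] {n : ℕ} {T : Finset ℕ}
  (hf : ∀ i c q q' r, f i c q = some r → f i c q' = some r → q = q')
  (ha : ∀ i < n, i ∉ T → ∀ c, ∀ q ∈ H i, ∃ r ∈ H (i + 1), f i c q = some r)

include hf ha in
lemma Rch_card {k i : ℕ} (hi : i < n) (hT : i ∉ T) :
    (Rch f q₀ H u k i).ncard ≤ (Rch f q₀ H u k (i + 1)).ncard := by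
  have h1 : ∀ q ∈ Rch f q₀ H u k i, ∃ r ∈ Rch f q₀ H u k (i + 1), f i (u i) q = some r := by
    intro q hq
    obtain ⟨r, hr, h⟩ := ha i hi hT (u i) q hq.1
    exact ⟨r, Rch_default hq h hr, h⟩
  choose! g hg1 hg2 using h1
  refine Set.ncard_le_ncard_of_injOn g hg1 ?_ (Set.toFinite _)
  intro q hq q' hq' h
  have h2 := hg2 q' hq'
  rw [← h] at h2
  exact hf i (u i) q q' (g q) (hg2 q hq) h2

include hf ha in
lemma Rch_card' {k i : ℕ} : ∀ {j : ℕ}, i ≤ j → j ≤ n → (∀ l, i ≤ l → l < j → l ∉ T) →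
    (Rch f q₀ H u k i).ncard ≤ (Rch f q₀ H u k j).ncard := by
  intro j hij
  induction j, hij using Nat.le_induction with
  | base => intro _ _; exact le_rfl
  | succ j hij ih =>
    intro hj hl
    exact (ih (by omega) fun l h1 h2 => hl l h1 (by omega)).trans
      (Rch_card hf ha (by omega) (hl j hij (by omega)))

include hf ha in
lemma grow {p : ℕ → Q} {X : ℕ → S} (hp : ∀ i ≤ n, p i ∈ H i)
    (hX : ∀ i < n, f i (X i) (p i) = some (p (i + 1))) {a k₀ : ℕ}
    (h0 : p a ∈ Rch f q₀ H u k₀ a) (k : ℕ) : ∀ i, a ≤ i → i ≤ n →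
    (∀ l, a ≤ l → l < i → l ∉ T) →
    p i ∈ Rch f q₀ H u (k₀ + k) i ∨ k + 1 ≤ (Rch f q₀ H u (k₀ + k) i).ncard := by
  induction k with
  | zero =>
    intro i hi hin hl
    right
    have h1 : 1 ≤ (Rch f q₀ H u (k₀ + 0) a).ncard :=
      (Set.ncard_pos (Set.toFinite _)).2 ⟨_, h0⟩
    exact h1.trans (Rch_card' hf ha hi hin hl)
  | succ k ih =>
    intro i hi hin hl
    by_contra hcon
    push Not at hcon
    obtain ⟨hc1, hc2⟩ := hcon
    classical
    have hex : ∃ i₁, a ≤ i₁ ∧ p i₁ ∉ Rch f q₀ H u (k₀ + k) i₁ :=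
      ⟨i, hi, fun h => hc1 (Rch_mono (by omega) h)⟩
    obtain ⟨h1, h2⟩ := Nat.find_spec hex
    set i₁ := Nat.find hex with hi1
    have hle : i₁ ≤ i := Nat.find_le ⟨hi, fun h => hc1 (Rch_mono (by omega) h)⟩
    have hmin : ∀ l, a ≤ l → l < i₁ → p l ∈ Rch f q₀ H u (k₀ + k) l := by
      intro l hal hlt
      by_contra hcon
      exact Nat.find_min hex hlt ⟨hal, hcon⟩
    have ha1 : a < i₁ := by
      rcases Nat.eq_or_lt_of_le h1 with h | h
      · exfalso
        apply h2
        rw [← h]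
        exact Rch_mono (by omega) h0
      · exact h
    clear_value i₁
    obtain ⟨l, rfl⟩ : ∃ l, i₁ = l + 1 := ⟨i₁ - 1, by omega⟩
    have h3 : p (l + 1) ∈ Rch f q₀ H u (k₀ + k + 1) (l + 1) :=
      Rch_step (hmin l (by omega) (by omega)) (X l) (hX l (by omega)) (hp (l + 1) (by omega))
    have h4 := (ih (l + 1) h1 (by omega) fun l' h5 h6 => hl l' h5 (by omega)).resolve_left h2
    have h5 : k + 1 + 1 ≤ (Rch f q₀ H u (k₀ + k + 1) (l + 1)).ncard := by
      have h6 : insert (p (l + 1)) (Rch f q₀ H u (k₀ + k) (l + 1)) ⊆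
          Rch f q₀ H u (k₀ + k + 1) (l + 1) := by
        rintro z (rfl | hz)
        · exact h3
        · exact Rch_mono (by omega) hz
      have h7 := Set.ncard_le_ncard h6 (Set.toFinite _)
      rw [Set.ncard_insert_of_notMem h2 (Set.toFinite _)] at h7
      omega
    have h6 := Rch_card' (k := k₀ + k + 1) (q₀ := q₀) (u := u) hf ha hle hin
      fun l' h5 h6 => hl l' (by omega) h6
    have h7 : k₀ + (k + 1) = k₀ + k + 1 := by omega
    rw [h7] at hc2
    omega

include hf ha in
lemma grow_end {p : ℕ → Q} {X : ℕ → S} (hp : ∀ i ≤ n, p i ∈ H i)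
    (hX : ∀ i < n, f i (X i) (p i) = some (p (i + 1))) {a k₀ i : ℕ}
    (h0 : p a ∈ Rch f q₀ H u k₀ a) (hi : a ≤ i) (hin : i ≤ n)
    (hl : ∀ l, a ≤ l → l < i → l ∉ T) :
    p i ∈ Rch f q₀ H u (k₀ + Fintype.card Q) i := by
  rcases grow hf ha hp hX h0 (Fintype.card Q) i hi hin hl with h | h
  · exact h
  · exfalso
    have h1 : (Rch f q₀ H u (k₀ + Fintype.card Q) i).ncard ≤ Nat.card Q := by
      rw [← Set.ncard_univ]
      exact Set.ncard_le_ncard (Set.subset_univ _) (Set.toFinite _)
    rw [Nat.card_eq_fintype_card] at h1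
    omega

include hf ha in
theorem reach {X : ℕ → S} (hX : ∀ i ≤ n, ∃ q ∈ H i, run f q₀ X i = some q) :
    ∃ w, run f q₀ w n = run f q₀ X n ∧
      hd w u n ≤ (Fintype.card Q + 1) * (T.card + 1) := by
  classical
  have h1 : ∀ i, ∃ q, i ≤ n → q ∈ H i ∧ run f q₀ X i = some q := by
    intro i
    by_cases hi : i ≤ n
    · obtain ⟨q, hq, h⟩ := hX i hi
      exact ⟨q, fun _ => ⟨hq, h⟩⟩
    · exact ⟨q₀, fun h => absurd h hi⟩
  choose p hp using h1
  have hp1 : ∀ i ≤ n, p i ∈ H i := fun i hi => (hp i hi).1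
  have hp2 : ∀ i < n, f i (X i) (p i) = some (p (i + 1)) := by
    intro i hi
    have h2 := (hp (i + 1) hi).2
    rw [run, (hp i hi.le).2] at h2
    exact h2
  have hp0 : p 0 = q₀ := by
    have h2 := (hp 0 (Nat.zero_le _)).2
    rw [run] at h2
    exact (Option.some_injective _ h2).symm
  have main : ∀ i, i ≤ n → ∃ a, a ≤ i ∧ (∀ l, a ≤ l → l < i → l ∉ T) ∧
      p a ∈ Rch f q₀ H u ((Fintype.card Q + 1) * (T.filter (· < i)).card) a := by
    intro i
    induction i with
    | zero =>
      intro _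
      refine ⟨0, le_rfl, fun l _ h => absurd h (Nat.not_lt_zero l), hp1 0 (Nat.zero_le _), X, ?_,
        ?_⟩
      · rw [run, hp0]
      · simp [hd]
    | succ i ih =>
      intro hi
      obtain ⟨a, ha1, ha2, ha3⟩ := ih (by omega)
      by_cases hiT : i ∈ T
      · refine ⟨i + 1, le_rfl, fun l h2 h3 => by omega, ?_⟩
        have h2 := grow_end hf ha hp1 hp2 ha3 ha1 (by omega) ha2
        have h3 := Rch_step h2 (X i) (hp2 i (by omega)) (hp1 (i + 1) hi)
        refine Rch_mono (le_of_eq ?_) h3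
        have h4 : (T.filter (· < i + 1)).card = (T.filter (· < i)).card + 1 := by
          have h5 : T.filter (· < i + 1) = insert i (T.filter (· < i)) := by
            ext j
            simp only [Finset.mem_filter, Finset.mem_insert]
            constructor
            · rintro ⟨h6, h7⟩
              by_cases h8 : j = i
              · exact Or.inl h8
              · exact Or.inr ⟨h6, by omega⟩
            · rintro (rfl | ⟨h6, h7⟩)
              · exact ⟨hiT, by omega⟩
              · exact ⟨h6, by omega⟩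
          rw [h5, Finset.card_insert_of_notMem (by simp)]
        rw [h4]
        ring
      · refine ⟨a, by omega, ?_, ?_⟩
        · intro l h2 h3
          rcases Nat.eq_or_lt_of_le (Nat.lt_succ_iff.1 h3) with h | h
          · rw [h]; exact hiT
          · exact ha2 l h2 h
        · refine Rch_mono ?_ ha3
          apply Nat.mul_le_mul_left
          apply Finset.card_le_card
          intro j hj
          rw [Finset.mem_filter] at hj ⊢
          exact ⟨hj.1, by omega⟩
  obtain ⟨a, ha1, ha2, ha3⟩ := main n le_rfl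
  obtain ⟨-, w, hw1, hw2⟩ := grow_end hf ha hp1 hp2 ha3 ha1 le_rfl ha2
  refine ⟨w, by rw [hw1, (hp n le_rfl).2], hw2.trans ?_⟩
  have h2 : (T.filter (· < n)).card ≤ T.card := Finset.card_le_card (Finset.filter_subset _ _)
  nlinarith

end grow

end Helper68.EDA
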