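import Pool.Agent.Helper68.EDA.PInj

set_option autoImplicit false
set_option linter.unusedSectionVars false

/-!
The heavy states of a program of partial injections.
-/

namespace Helper68.EDA

open Finset

variable {Q S : Type} [Fintype Q] [Fintype S] [Nonempty S]

open Classical in
/-- The mass outside of `H`. -/
noncomputable def lmass (μ : Q → ℝ) (H : Set Q) : ℝ := ∑ q, if q ∈ H then 0 else μ q

lemma lmass_le {μ : Q → ℝ} {θ η : ℝ} (h0 : 0 ≤ η * θ) (hgap : Gap μ θ η) :
    lmass μ {q | θ ≤ μ q} ≤ Fintype.card Q * (η * θ) := by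
  classical
  unfold lmass
  calc (∑ q, if q ∈ {q | θ ≤ μ q} then 0 else μ q) ≤ ∑ _q : Q, η * θ := by
        apply Finset.sum_le_sum
        intro q _
        split_ifs with h
        · exact h0
        · rcases hgap q with h1 | h1
          · exact absurd h1 h
          · exact h1
    _ = Fintype.card Q * (η * θ) := by
        rw [Finset.sum_const, Finset.card_univ, nsmul_eq_mul]

section seq

variable (f : ℕ → S → Q → Option Q) (m : ℕ → Q → ℝ) (η : ℝ)
  (g : ℕ → ℕ)

open Classical in
/-- The windows. -/
noncomputable def win : ℕ → ℕ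
  | 0 => g 0
  | i + 1 => if Quiet (f i) (m i) (η ^ win i) then win i else g (i + 1)

/-- The loud times. -/
def Loud (i : ℕ) : Prop := ¬ Quiet (f i) (m i) (η ^ win f m η g i)

variable {f m η g}

variable {n : ℕ} (h0 : 0 < η) (h1 : η ≤ 1 / 4)
  (hf : ∀ i c q q' r, f i c q = some r → f i c q' = some r → q = q')
  (hrec : ∀ i < n, ∀ r, m (i + 1) r = avg fun c => push (f i c) (m i) r)
  (hg : ∀ i, g i ≤ Fintype.card Q ∧ Gap (m i) (η ^ g i) η)

include h0 hf hrec hg in
lemma win_spec : ∀ i, i ≤ n → win f m η g i ≤ Fintype.card Q ∧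
    Gap (m i) (η ^ win f m η g i) η := by
  intro i
  induction i with
  | zero => intro _; exact hg 0
  | succ i ih =>
    intro hi
    rw [win]
    split_ifs with h
    · obtain ⟨h2, h3⟩ := ih (by omega)
      exact ⟨h2, quiet_gap (by positivity) (hf i) (hrec i (by omega)) h3 h⟩
    · exact hg (i + 1)

/-- The potentials. -/
noncomputable def P (m : ℕ → Q → ℝ) (η : ℝ) (j i : ℕ) : ℝ := pot (η ^ j / 2) (m i)

include h0 hf hrec in
lemma P_anti (j i : ℕ) (hi : i < n) : P m η j (i + 1) ≤ P m η j i :=
  pot_mono (by positivity) (hf i) (hrec i hi)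

include h0 h1 hf hrec hg in
lemma P_drop (i : ℕ) (hi : i < n) (hl : Loud f m η g i) :
    η ^ win f m η g i / (4 * Fintype.card S) ≤
      P m η (win f m η g i) i - P m η (win f m η g i) (i + 1) := by
  have h2 := pot_drop (μ' := m (i + 1)) (θ := η ^ win f m η g i) (by positivity) h1 (hf i)
    (hrec i hi) (win_spec h0 hf hrec hg i hi.le).2 hl
  unfold P
  linarith

include h0 h1 hf hrec hg in
/-- A weighted sum of the potentials pays for the loud times. -/
lemma pay (w : ℕ → ℝ) (hw : ∀ j, 0 ≤ w j) (i : ℕ) (hi : i < n) :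
    (∀ l, l = win f m η g i → Loud f m η g i →
      w l * (η ^ l / (4 * Fintype.card S)) ≤
      (∑ j ∈ range (Fintype.card Q + 1), w j * (P m η j 0 - P m η j (i + 1))) -
      ∑ j ∈ range (Fintype.card Q + 1), w j * (P m η j 0 - P m η j i)) ∧
    (∑ j ∈ range (Fintype.card Q + 1), w j * (P m η j 0 - P m η j i)) ≤
      ∑ j ∈ range (Fintype.card Q + 1), w j * (P m η j 0 - P m η j (i + 1)) := by
  constructor
  · rintro l hl hloud
    rw [← Finset.sum_sub_distrib]
    have h2 := P_drop h0 h1 hf hrec hg i hi hloud
    rw [← hl] at h2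
    have h3 : l ∈ range (Fintype.card Q + 1) := by
      rw [Finset.mem_range, hl]
      have := (win_spec h0 hf hrec hg i hi.le).1
      omega
    refine le_trans ?_ (Finset.single_le_sum (f := fun j => w j * (P m η j 0 -
      P m η j (i + 1)) - w j * (P m η j 0 - P m η j i)) (fun j _ => ?_) h3)
    · have h4 := mul_le_mul_of_nonneg_left h2 (hw l)
      nlinarith
    · have h4 := mul_le_mul_of_nonneg_left (P_anti h0 hf hrec j i hi) (hw j)
      nlinarith
  · apply Finset.sum_le_sum
    intro j _
    have h4 := P_anti h0 hf hrec j i hi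
    apply mul_le_mul_of_nonneg_left _ (hw j)
    linarith

open Classical in
/-- The set of the loud times before `i`. -/
noncomputable def loudSet (f : ℕ → S → Q → Option Q) (m : ℕ → Q → ℝ) (η : ℝ) (g : ℕ → ℕ)
    (i : ℕ) : Finset ℕ := (range i).filter (Loud f m η g)

lemma loudSet_succ_of (i : ℕ) (h : Loud f m η g i) :
    loudSet f m η g (i + 1) = insert i (loudSet f m η g i) := by
  classical
  unfold loudSet
  rw [Finset.range_add_one, Finset.filter_insert, if_pos h]

lemma loudSet_succ_not (i : ℕ) (h : ¬ Loud f m η g i) :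
    loudSet f m η g (i + 1) = loudSet f m η g i := by
  classical
  unfold loudSet
  rw [Finset.range_add_one, Finset.filter_insert, if_neg h]

lemma not_mem_loudSet (i : ℕ) : i ∉ loudSet f m η g i := by
  classical
  unfold loudSet
  simp

include h0 h1 hf hrec hg in
lemma card_loud : ∀ i, i ≤ n → ((loudSet f m η g i).card : ℝ) ≤
    ∑ j ∈ range (Fintype.card Q + 1), (4 * Fintype.card S / η ^ j) *
      (P m η j 0 - P m η j i) := by
  have hs := card_pos' (S := S)
  intro i
  induction i with
  | zero =>
    intro _
    classical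
    simp [loudSet]
  | succ i ih =>
    intro hi
    have h2 := ih (by omega)
    obtain ⟨h3, h4⟩ := pay h0 h1 hf hrec hg (fun j => 4 * Fintype.card S / η ^ j)
      (fun j => by positivity) i (by omega)
    by_cases hl : Loud f m η g i
    · rw [loudSet_succ_of i hl, Finset.card_insert_of_notMem (not_mem_loudSet i)]
      have h5 := h3 _ rfl hl
      have h6 : (4 * (Fintype.card S : ℝ) / η ^ win f m η g i) *
          (η ^ win f m η g i / (4 * Fintype.card S)) = 1 := by
        field_simp
      rw [h6] at h5
      push_cast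
      linarith
    · rw [loudSet_succ_not i hl]
      linarith

include h0 h1 hf hrec hg in
lemma sum_light : ∀ i, i ≤ n → (∑ k ∈ loudSet f m η g i,
    lmass (m (k + 1)) {q | η ^ win f m η g (k + 1) ≤ m (k + 1) q}) ≤
    Fintype.card Q * (η * η ^ win f m η g i) +
    ∑ j ∈ range (Fintype.card Q + 1), (4 * Fintype.card S * Fintype.card Q * η) *
      (P m η j 0 - P m η j i) := by
  have hs := card_pos' (S := S)
  intro i
  induction i with
  | zero =>
    intro _
    classical
    simp [loudSet]
    positivity
  | succ i ih =>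
    intro hi
    have h2 := ih (by omega)
    obtain ⟨h3, h4⟩ := pay h0 h1 hf hrec hg
      (fun _ => 4 * Fintype.card S * Fintype.card Q * η)
      (fun j => by positivity) i (by omega)
    by_cases hl : Loud f m η g i
    · rw [loudSet_succ_of i hl, Finset.sum_insert (not_mem_loudSet i)]
      have h5 := h3 _ rfl hl
      have h6 : (4 * (Fintype.card S : ℝ) * Fintype.card Q * η) *
          (η ^ win f m η g i / (4 * Fintype.card S)) =
          Fintype.card Q * (η * η ^ win f m η g i) := by
        field_simp
      rw [h6] at h5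
      have h7 := lmass_le (μ := m (i + 1)) (θ := η ^ win f m η g (i + 1)) (η := η)
        (by positivity) (win_spec h0 hf hrec hg (i + 1) hi).2
      linarith
    · rw [loudSet_succ_not i hl]
      have h5 : win f m η g (i + 1) = win f m η g i := by
        rw [win, if_pos]
        unfold Loud at hl
        push Not at hl
        exact hl
      rw [h5]
      linarith

end seq

/-- The times of `T` excepted, the states of `H` move onto states of `H` and the other states are
killed or move to states outside of `H`. -/
structure Heavy (f : ℕ → S → Q → Option Q) (m : ℕ → Q → ℝ) (n : ℕ) (δ : ℝ) (H : ℕ → Set Q)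
    (T : Finset ℕ) : Prop where
  alive : ∀ i < n, i ∉ T → ∀ c, ∀ q ∈ H i, ∃ r ∈ H (i + 1), f i c q = some r
  light : lmass (m 0) (H 0) + ∑ i ∈ T, lmass (m (i + 1)) (H (i + 1)) ≤ δ

theorem exists_heavy (Q S : Type) [Fintype Q] [Fintype S] [Nonempty S] (δ : ℝ) (hδ : 0 < δ) :
    ∃ K : ℕ, ∀ (n : ℕ) (f : ℕ → S → Q → Option Q) (m : ℕ → Q → ℝ),
      (∀ i c q q' r, f i c q = some r → f i c q' = some r → q = q') →
      (∀ i < n, ∀ r, m (i + 1) r = avg fun c => push (f i c) (m i) r) →
      (∀ q, 0 ≤ m 0 q) → ∑ q, m 0 q ≤ 1 →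
      ∃ (H : ℕ → Set Q) (T : Finset ℕ), T.card ≤ K ∧ Heavy f m n δ H T := by
  classical
  have hs := card_pos' (S := S)
  set N : ℝ := ((Fintype.card Q : ℕ) : ℝ) with hN
  have hN0 : 0 ≤ N := Nat.cast_nonneg _
  set D : ℝ := (N + 1) * (2 + 4 * Fintype.card S * (N + 1)) with hD
  have hD0 : 0 < D := by positivity
  set η : ℝ := min (1 / 4) (δ / D) with hη
  have h0 : 0 < η := lt_min (by norm_num) (by positivity)
  have h1 : η ≤ 1 / 4 := min_le_left _ _
  have h2 : η * D ≤ δ := by
    have : η ≤ δ / D := min_le_right _ _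
    rwa [le_div_iff₀ hD0] at this
  refine ⟨⌈∑ j ∈ range (Fintype.card Q + 1), 4 * (Fintype.card S : ℝ) / η ^ j⌉₊, ?_⟩
  intro n f m hf hrec hm0 hsum
  choose g hg using fun i => exists_gap (m i) h0 (by linarith)
  have hP0 : ∀ j, P m η j 0 ≤ 1 := by
    intro j
    refine le_trans ?_ hsum
    exact Finset.sum_le_sum fun q _ => pp_le (by positivity) (hm0 q)
  have hPn : ∀ j i, 0 ≤ P m η j i := fun j i => pot_nonneg _ _
  refine ⟨fun i => {q | η ^ win f m η g i ≤ m i q}, loudSet f m η g n, ?_, ?_, ?_⟩
  · have h3 := card_loud h0 h1 hf hrec hg n le_rfl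
    have h4 : ((loudSet f m η g n).card : ℝ) ≤
        ∑ j ∈ range (Fintype.card Q + 1), 4 * (Fintype.card S : ℝ) / η ^ j := by
      refine h3.trans (Finset.sum_le_sum fun j _ => ?_)
      have h5 : P m η j 0 - P m η j n ≤ 1 := by linarith [hP0 j, hPn j n]
      calc 4 * (Fintype.card S : ℝ) / η ^ j * (P m η j 0 - P m η j n) ≤
          4 * (Fintype.card S : ℝ) / η ^ j * 1 := by
            apply mul_le_mul_of_nonneg_left h5
            positivity
        _ = _ := mul_one _
    exact_mod_cast h4.trans (Nat.le_ceil _)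
  · intro i hi hiT c q hq
    have hnl : ¬ Loud f m η g i := by
      intro h
      apply hiT
      unfold loudSet
      rw [Finset.mem_filter, Finset.mem_range]
      exact ⟨hi, h⟩
    unfold Loud at hnl
    push Not at hnl
    have h5 : win f m η g (i + 1) = win f m η g i := by rw [win, if_pos hnl]
    rcases hr : f i c q with _ | r
    · exact absurd hr (hnl.1 c q hq)
    · refine ⟨r, ?_, rfl⟩
      change η ^ win f m η g (i + 1) ≤ m (i + 1) r
      rw [h5]
      exact quiet_heavy (hf i) (hrec i hi) hnl hq hr
  · have h3 := sum_light h0 h1 hf hrec hg n le_rfl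
    have h4 := lmass_le (μ := m 0) (θ := η ^ win f m η g 0) (η := η) (by positivity)
      (win_spec h0 hf hrec hg 0 (Nat.zero_le _)).2
    have h5 : ∀ i, N * (η * η ^ win f m η g i) ≤ N * η := by
      intro i
      apply mul_le_mul_of_nonneg_left _ hN0
      have : η ^ win f m η g i ≤ 1 := pow_le_one₀ h0.le (by linarith)
      nlinarith
    have h6 : (∑ j ∈ range (Fintype.card Q + 1), (4 * Fintype.card S * Fintype.card Q * η) *
        (P m η j 0 - P m η j n)) ≤ (N + 1) * (4 * Fintype.card S * N * η) := by
      calc (∑ j ∈ range (Fintype.card Q + 1), (4 * Fintype.card S * Fintype.card Q * η) *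
          (P m η j 0 - P m η j n)) ≤
          ∑ j ∈ range (Fintype.card Q + 1), (4 * Fintype.card S * Fintype.card Q * η) := by
            apply Finset.sum_le_sum
            intro j _
            have h5 : P m η j 0 - P m η j n ≤ 1 := by linarith [hP0 j, hPn j n]
            calc (4 * Fintype.card S * Fintype.card Q * η) * (P m η j 0 - P m η j n) ≤
                (4 * Fintype.card S * Fintype.card Q * η) * 1 := by
                  apply mul_le_mul_of_nonneg_left h5
                  positivity
              _ = _ := mul_one _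
        _ = _ := by
            rw [Finset.sum_const, Finset.card_range, nsmul_eq_mul]
            push_cast
            ring
    have h7 := h5 0
    have h8 := h5 n
    have h9 : N * η + (N * η + (N + 1) * (4 * Fintype.card S * N * η)) ≤ η * D := by
      rw [hD]
      have : 0 ≤ η * (2 + 4 * Fintype.card S * (N + 1)) := by positivity
      nlinarith
    linarith

end Helper68.EDA
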