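import Pool.Agent.Helper68.DS.Prog
import Pool.Agent.Helper68.EDA.Heavy
import Pool.Agent.Helper68.EDA.Grow

set_option autoImplicit false
set_option linter.unusedSectionVars false

/-!
Programs of partial injections on random strings.
-/

namespace Helper68.EDA

open Helper68.DS Finset

variable {S : Type} [Fintype S] [Nonempty S]

open Classical in
lemma prob_eq_sum {n : ℕ} (P : (Fin n → S) → Prop) :
    prob P = (∑ x, if P x then (1 : ℝ) else 0) / (Fintype.card S : ℝ) ^ n := by
  unfold prob
  rw [Nat.card_eq_fintype_card, Fintype.card_subtype, Finset.sum_boole]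

lemma prob_nonneg {n : ℕ} (P : (Fin n → S) → Prop) : 0 ≤ prob P := by
  unfold prob
  positivity

lemma prob_le_one {n : ℕ} (P : (Fin n → S) → Prop) : prob P ≤ 1 := by
  classical
  rw [prob_eq_sum]
  have hs := card_pos' (S := S)
  rw [div_le_one (by positivity)]
  calc (∑ x, if P x then (1 : ℝ) else 0) ≤ ∑ _x : Fin n → S, (1 : ℝ) := by
        apply Finset.sum_le_sum
        intro x _
        split_ifs <;> norm_num
    _ = (Fintype.card S : ℝ) ^ n := by
        rw [Finset.sum_const, Finset.card_univ, nsmul_eq_mul, mul_one, Fintype.card_fun,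
          Fintype.card_fin]
        push_cast
        rfl

open Classical in
lemma prob_avg {n : ℕ} (i : Fin n) (P : S → (Fin n → S) → Prop)
    (hP : ∀ c c' x, P c (Function.update x i c') ↔ P c x) :
    prob (fun x => P (x i) x) = avg fun c => prob (P c) := by
  have hs := card_pos' (S := S)
  have key : (∑ p : S × (Fin n → S), if P p.1 p.2 then (1 : ℝ) else 0) =
      ∑ p : S × (Fin n → S), if P (p.2 i) p.2 then (1 : ℝ) else 0 := by
    let e : S × (Fin n → S) ≃ S × (Fin n → S) :=
      { toFun := fun p => (p.2 i, Function.update p.2 i p.1)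
        invFun := fun p => (p.2 i, Function.update p.2 i p.1)
        left_inv := by
          rintro ⟨c, x⟩
          simp
        right_inv := by
          rintro ⟨c, x⟩
          simp }
    apply Fintype.sum_equiv e
    rintro ⟨c, x⟩
    have h1 : P ((Function.update x i c) i) (Function.update x i c) ↔ P c x := by
      rw [Function.update_self]
      exact hP c c x
    simp only [e, Equiv.coe_fn_mk]
    exact if_congr h1.symm rfl rfl
  rw [Fintype.sum_prod_type, Fintype.sum_prod_type] at key
  have key2 : (∑ c : S, ∑ x : Fin n → S, if P c x then (1 : ℝ) else 0) =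
      Fintype.card S * ∑ x : Fin n → S, if P (x i) x then (1 : ℝ) else 0 := by
    rw [key]
    change (∑ _c : S, ∑ x : Fin n → S, if P (x i) x then (1 : ℝ) else 0) = _
    rw [Finset.sum_const, Finset.card_univ, nsmul_eq_mul]
  unfold avg
  rw [prob_eq_sum]
  have h2 : ∀ c, prob (P c) = (∑ x, if P c x then (1 : ℝ) else 0) / (Fintype.card S : ℝ) ^ n :=
    fun c => prob_eq_sum (P c)
  simp only [h2]
  rw [← Finset.sum_div, key2]
  field_simp

open Classical in
lemma prob_sum {n : ℕ} {Q : Type} [Fintype Q] (G : (Fin n → S) → Option Q) (R : Q → Prop) :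
    prob (fun x => ∃ q, G x = some q ∧ R q) =
      ∑ q, if R q then prob (fun x => G x = some q) else 0 := by
  have h1 : ∀ q : Q, (if R q then prob (fun x => G x = some q) else 0) =
      (∑ x, if R q ∧ G x = some q then (1 : ℝ) else 0) / (Fintype.card S : ℝ) ^ n := by
    intro q
    rw [prob_eq_sum]
    by_cases h : R q
    · simp only [h, true_and, if_true]
      congr 1
      apply Finset.sum_congr rfl
      intro x _
      by_cases h' : G x = some q
      · rw [if_pos h', if_pos h']
      · rw [if_neg h', if_neg h']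
    · simp only [h, false_and, if_false, Finset.sum_const_zero, zero_div]
  simp only [h1]
  rw [prob_eq_sum]
  rw [← Finset.sum_div, Finset.sum_comm]
  congr 1
  apply Finset.sum_congr rfl
  intro x _
  rcases hx : G x with _ | q₀
  · simp
  · by_cases h : R q₀
    · rw [if_pos ⟨q₀, rfl, h⟩, Finset.sum_eq_single q₀]
      · rw [if_pos ⟨h, rfl⟩]
      · intro q _ hne
        rw [if_neg]
        rintro ⟨-, h'⟩
        exact hne (Option.some_injective _ h').symm
      · intro h'
        exact absurd (Finset.mem_univ _) h'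
    · rw [if_neg]
      · symm
        apply Finset.sum_eq_zero
        intro q _
        rw [if_neg]
        rintro ⟨h1, h2⟩
        rw [Option.some_injective _ h2] at h
        exact h h1
      · rintro ⟨q, h1, h2⟩
        rw [Option.some_injective _ h1] at h
        exact h h2

/-- The string from the position `σ` on. -/
noncomputable def tail {n : ℕ} (σ : ℕ) (x : Fin n → S) : ℕ → S := fun j => lft x (σ + j)

section mass

variable {Q : Type} [Fintype Q] {n : ℕ} (f : ℕ → S → Q → Option Q) (q₀ : Q) (σ : ℕ)

/-- The distribution of the state. -/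
noncomputable def mass (n : ℕ) (k : ℕ) (q : Q) : ℝ :=
  prob fun x : Fin n → S => run f q₀ (tail σ x) k = some q

lemma mass_rec {k : ℕ} (hk : σ + k < n) (r : Q) :
    mass f q₀ σ n (k + 1) r = avg fun c => push (f k c) (mass f q₀ σ n k) r := by
  classical
  have h1 : ∀ c, push (f k c) (mass f q₀ σ n k) r =
      prob (fun x : Fin n → S => ∃ q, run f q₀ (tail σ x) k = some q ∧ f k c q = some r) := by
    intro c
    rw [prob_sum (fun x : Fin n → S => run f q₀ (tail σ x) k) (fun q => f k c q = some r)]
    unfold push mass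
    apply Finset.sum_congr rfl
    intro q _
    by_cases h : f k c q = some r
    · rw [if_pos h, if_pos h]
    · rw [if_neg h, if_neg h]
  simp only [h1]
  rw [← prob_avg ⟨σ + k, hk⟩ (fun c (x : Fin n → S) =>
    ∃ q, run f q₀ (tail σ x) k = some q ∧ f k c q = some r)]
  · unfold mass
    congr 1
    funext x
    have h2 : tail σ x k = x ⟨σ + k, hk⟩ := by
      unfold tail
      exact lft_apply x ⟨σ + k, hk⟩
    rw [run, h2, Option.bind_eq_some_iff]
  · intro c c' x
    have h2 : run f q₀ (tail σ (Function.update x ⟨σ + k, hk⟩ c')) k =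
        run f q₀ (tail σ x) k := by
      apply run_congr
      intro i hi
      unfold tail lft
      split_ifs with h3
      · rw [Function.update_of_ne]
        intro h4
        have := congrArg Fin.val h4
        simp only at this
        omega
      · rfl
    rw [h2]

lemma lmass_eq (k : ℕ) (A : Set Q) : lmass (mass f q₀ σ n k) A =
    prob fun x : Fin n → S => ∃ q, run f q₀ (tail σ x) k = some q ∧ q ∉ A := by
  classical
  rw [prob_sum (fun x : Fin n → S => run f q₀ (tail σ x) k) (fun q => q ∉ A)]
  unfold lmass mass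
  apply Finset.sum_congr rfl
  intro q _
  by_cases h : q ∈ A
  · rw [if_pos h, if_neg (not_not.2 h)]
  · rw [if_neg h, if_pos h]

end mass

/-- The probabilistic form of the lemma on heavy states. -/
theorem exists_heavy_prob (Q S : Type) [Fintype Q] [Fintype S] [Nonempty S] (δ : ℝ)
    (hδ : 0 < δ) : ∃ K : ℕ, ∀ (n σ : ℕ) (f : ℕ → S → Q → Option Q) (q₀ : Q), σ ≤ n →
      (∀ i c q q' r, f i c q = some r → f i c q' = some r → q = q') →
      ∃ (H : ℕ → Set Q) (T : Finset ℕ), T.card ≤ K ∧
        (∀ i < n - σ, i ∉ T → ∀ c, ∀ q ∈ H i, ∃ r ∈ H (i + 1), f i c q = some r) ∧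
        prob (fun x : Fin n → S => ∃ k ≤ n - σ, ∃ q, run f q₀ (tail σ x) k = some q ∧
          q ∉ H k) ≤ δ := by
  classical
  obtain ⟨K, hK⟩ := exists_heavy Q S δ hδ
  refine ⟨K, ?_⟩
  intro n σ f q₀ hσ hf
  obtain ⟨H, T, hT, hheavy⟩ := hK (n - σ) f (mass f q₀ σ n) hf
    (fun i hi r => mass_rec f q₀ σ (by omega) r) (fun q => prob_nonneg _) (by
      have h1 := prob_sum (fun x : Fin n → S => run f q₀ (tail σ x) 0) (fun _ : Q => True)
      simp only [if_true] at h1
      unfold mass
      rw [← h1]
      exact prob_le_one _)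
  refine ⟨H, T, hT, hheavy.alive, ?_⟩
  have h1 : prob (fun x : Fin n → S => ∃ k ≤ n - σ, ∃ q, run f q₀ (tail σ x) k = some q ∧
      q ∉ H k) ≤ prob (fun x : Fin n → S =>
        (∃ q, run f q₀ (tail σ x) 0 = some q ∧ q ∉ H 0) ∨
        ∃ i ∈ T, ∃ q, run f q₀ (tail σ x) (i + 1) = some q ∧ q ∉ H (i + 1)) := by
    apply prob_mono
    intro x hx
    have hspec := Nat.find_spec hx
    have hmin := fun k => Nat.find_min hx (m := k)
    set k := Nat.find hx with hk
    clear_value k
    obtain ⟨hkn, q, hq1, hq2⟩ := hspec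
    rcases k with _ | k
    · exact Or.inl ⟨q, hq1, hq2⟩
    · right
      refine ⟨k, ?_, q, hq1, hq2⟩
      by_contra hkT
      rw [run] at hq1
      obtain ⟨q', hq', hq''⟩ := Option.bind_eq_some_iff.1 hq1
      have hq'H : q' ∈ H k := by
        by_contra hcon
        exact hmin k (Nat.lt_succ_self k) ⟨by omega, q', hq', hcon⟩
      obtain ⟨r, hr, hr'⟩ := hheavy.alive k (by omega) hkT (tail σ x k) q' hq'H
      rw [hr'] at hq''
      rw [Option.some_injective _ hq''] at hr
      exact hq2 hr
  refine h1.trans ((prob_or _ _).trans ?_)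
  refine le_trans (add_le_add_right (prob_union T (fun i (x : Fin n → S) =>
    ∃ q, run f q₀ (tail σ x) (i + 1) = some q ∧ q ∉ H (i + 1))) _) ?_
  have h2 := hheavy.light
  simp only [lmass_eq] at h2
  exact h2

/-- Near every string there is a string reaching a state which is reached with probability at
least `ε`. -/
theorem exists_near (Q S : Type) [Fintype Q] [Fintype S] [Nonempty S] (ε : ℝ) (hε : 0 < ε) :
    ∃ d : ℕ, ∀ (n σ τ : ℕ) (f : ℕ → S → Q → Option Q) (q₀ q₁ : Q) (u : ℕ → S), σ ≤ τ → τ ≤ n →
      (∀ i c q q' r, f i c q = some r → f i c q' = some r → q = q') →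
      ε ≤ prob (fun x : Fin n → S => run f q₀ (tail σ x) (τ - σ) = some q₁) →
      ∃ w, run f q₀ w (τ - σ) = some q₁ ∧ hd w u (τ - σ) ≤ d := by
  classical
  obtain ⟨K, hK⟩ := exists_heavy_prob Q S (ε / 2) (by positivity)
  refine ⟨(Fintype.card Q + 1) * (K + 1), ?_⟩
  intro n σ τ f q₀ q₁ u hστ hτn hf hprob
  obtain ⟨H, T, hT, ha, hl⟩ := hK n σ f q₀ (by omega) hf
  obtain ⟨x, hx1, hx2⟩ : ∃ x : Fin n → S, run f q₀ (tail σ x) (τ - σ) = some q₁ ∧
      ¬ ∃ k ≤ n - σ, ∃ q, run f q₀ (tail σ x) k = some q ∧ q ∉ H k := by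
    by_contra hcon
    push Not at hcon
    have h1 : prob (fun x : Fin n → S => run f q₀ (tail σ x) (τ - σ) = some q₁) ≤
        prob (fun x : Fin n → S => ∃ k ≤ n - σ, ∃ q, run f q₀ (tail σ x) k = some q ∧
          q ∉ H k) := prob_mono fun x hx => hcon x hx
    linarith
  have hX : ∀ i ≤ τ - σ, ∃ q ∈ H i, run f q₀ (tail σ x) i = some q := by
    have halive : ∀ j, ∀ i, i + j = τ - σ → ∃ q, run f q₀ (tail σ x) i = some q := by
      intro j
      induction j with
      | zero =>
        intro i hi
        rw [add_zero] at hi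
        exact ⟨q₁, by rw [hi, hx1]⟩
      | succ j ih =>
        intro i hi
        obtain ⟨q, hq⟩ := ih (i + 1) (by omega)
        rw [run] at hq
        obtain ⟨q', hq', -⟩ := Option.bind_eq_some_iff.1 hq
        exact ⟨q', hq'⟩
    intro i hi
    obtain ⟨q, hq⟩ := halive (τ - σ - i) i (by omega)
    refine ⟨q, ?_, hq⟩
    by_contra hcon
    exact hx2 ⟨i, by omega, q, hq, hcon⟩
  obtain ⟨w, hw1, hw2⟩ := reach (u := u) (T := T) hf
    (fun i hi hiT => ha i (by omega) hiT) hX
  refine ⟨w, by rw [hw1, hx1], hw2.trans ?_⟩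
  apply Nat.mul_le_mul_left
  omega

end Helper68.EDA
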