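import Pool.Agent.Helper68.EDA.Alg
import Pool.Agent.Helper68.EDA.PProb

set_option autoImplicit false
set_option linter.unusedSectionVars false

/-!
The classes of elements of a regular `J`-class with the same future: all elements of the monoid act
on them by partial injections.
-/

namespace Helper68.EDA

open Helper68.DS Finset

variable {M : Type} [Monoid M]

lemma JEq.symm' {x y : M} (h : JEq x y) : JEq y x := ⟨h.2, h.1⟩

lemma JEq.trans' {x y z : M} (h : JEq x y) (h' : JEq y z) : JEq x z :=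
  ⟨h.1.trans h'.1, h'.2.trans h.2⟩

open Classical in
/-- The future of `y`. -/
noncomputable def Fut (v₀ y : M) : M → Option M := fun z =>
  if JEq z v₀ ∧ JEq (y * z) v₀ then some (y * z) else none

open Classical in
/-- The action of `c` on futures. -/
noncomputable def act (v₀ c : M) (P : M → Option M) : Option (M → Option M) :=
  if h : ∃ y, JEq y v₀ ∧ JEq (y * c) v₀ ∧ Fut v₀ y = P then some (Fut v₀ (h.choose * c)) else none

lemma Fut_some {v₀ y z : M} (h1 : JEq z v₀) (h2 : JEq (y * z) v₀) :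
    Fut v₀ y z = some (y * z) := by
  unfold Fut
  rw [if_pos ⟨h1, h2⟩]

lemma Fut_apply {v₀ y y' z : M} (h : Fut v₀ y = Fut v₀ y') (h1 : JEq z v₀)
    (h2 : JEq (y * z) v₀) : y' * z = y * z := by
  have h3 := congrFun h z
  rw [Fut_some h1 h2] at h3
  unfold Fut at h3
  split_ifs at h3 with h4
  exact (Option.some_injective _ h3).symm

lemma Fut_ext {v₀ y y' : M} (h1 : ∀ z, JEq z v₀ → JEq (y * z) v₀ → y' * z = y * z)
    (h2 : ∀ z, JEq z v₀ → JEq (y' * z) v₀ → y * z = y' * z) : Fut v₀ y = Fut v₀ y' := by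
  funext z
  unfold Fut
  by_cases ha : JEq z v₀ ∧ JEq (y * z) v₀
  · have h3 := h1 z ha.1 ha.2
    rw [if_pos ha, if_pos ⟨ha.1, by rw [h3]; exact ha.2⟩, h3]
  · rw [if_neg ha, if_neg]
    rintro ⟨h3, h4⟩
    apply ha
    have h5 := h2 z h3 h4
    exact ⟨h3, by rw [h5]; exact h4⟩

lemma exW {v₀ y : M} (hr : Reg v₀) (hy : JEq y v₀) : ∃ w, JEq w v₀ ∧ JEq (y * w) v₀ := by
  obtain ⟨z, hz⟩ := hr
  obtain ⟨a, b, hab⟩ := hy.2
  refine ⟨b * (z * v₀), ⟨⟨b * z, 1, by simp only [mul_assoc, mul_one]⟩, ⟨a * y, 1, ?_⟩⟩,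
    ⟨⟨y * b * z, 1, by simp only [mul_assoc, mul_one]⟩, ⟨a, 1, ?_⟩⟩⟩
  · calc v₀ = v₀ * z * v₀ := hz.symm
      _ = (a * y * b) * z * v₀ := by rw [← hab]
      _ = a * y * (b * (z * v₀)) * 1 := by simp only [mul_assoc, mul_one]
  · calc v₀ = v₀ * z * v₀ := hz.symm
      _ = (a * y * b) * z * v₀ := by rw [← hab]
      _ = a * (y * (b * (z * v₀))) * 1 := by simp only [mul_assoc, mul_one]

/-- A factor between two elements of the `J`-class. -/
lemma JEq.of_mul_right {v₀ y c : M} (h : JEq (y * c) v₀) (hc : JLe c v₀) : JEq c v₀ :=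
  ⟨hc, h.2.trans (JLe.of_mul' y c)⟩

lemma Fut_act {v₀ y y' c : M} (hr : Reg v₀) (hy : JEq y v₀) (hy' : JEq y' v₀)
    (h : Fut v₀ y = Fut v₀ y') (hc : JEq (y * c) v₀) :
    JEq (y' * c) v₀ ∧ Fut v₀ (y * c) = Fut v₀ (y' * c) := by
  have key : ∀ {a a' : M}, JEq a v₀ → JEq a' v₀ → Fut v₀ a = Fut v₀ a' → JEq (a * c) v₀ →
      ∀ z, JEq z v₀ → JEq (a * c * z) v₀ → a' * c * z = a * c * z := by
    intro a a' ha ha' haa hac z hz hacz
    have h1 : JEq (c * z) v₀ := by
      apply JEq.of_mul_right (y := a)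
      · rw [← mul_assoc]; exact hacz
      · exact hz.1.mul_left c
    have h2 := Fut_apply haa h1 (by rw [← mul_assoc]; exact hacz)
    rw [← mul_assoc, ← mul_assoc] at h2
    exact h2
  have hc' : JEq (y' * c) v₀ := by
    obtain ⟨w, hw1, hw2⟩ := exW hr hc
    have h1 := key hy hy' h hc w hw1 hw2
    refine ⟨hy'.1.mul_right c, ?_⟩
    refine (hw2.2.trans ?_)
    rw [← h1]
    exact JLe.of_mul _ _
  refine ⟨hc', Fut_ext (key hy hy' h hc) (key hy' hy h.symm hc')⟩

lemma act_some {v₀ y c : M} (hr : Reg v₀) (hy : JEq y v₀) (hc : JEq (y * c) v₀) :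
    act v₀ c (Fut v₀ y) = some (Fut v₀ (y * c)) := by
  unfold act
  have h : ∃ y', JEq y' v₀ ∧ JEq (y' * c) v₀ ∧ Fut v₀ y' = Fut v₀ y := ⟨y, hy, hc, rfl⟩
  rw [dif_pos h]
  obtain ⟨h1, h2, h3⟩ := h.choose_spec
  rw [(Fut_act hr h1 hy h3 h2).2]

lemma act_none {v₀ y c : M} (hr : Reg v₀) (hy : JEq y v₀) (hc : ¬ JEq (y * c) v₀) :
    act v₀ c (Fut v₀ y) = none := by
  unfold act
  rw [dif_neg]
  rintro ⟨y', h1, h2, h3⟩
  exact hc (Fut_act hr h1 hy h3 h2).1

lemma Fut_eq_of [Finite M] (hP : Pat M) {v₀ y y' w : M} (hy : JEq y v₀) (hy' : JEq y' v₀)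
    (hw : JEq w v₀) (h : y * w = y' * w) (hyw : JEq (y * w) v₀) : Fut v₀ y = Fut v₀ y' := by
  apply Fut_ext
  · intro z hz hyz
    exact keyK hP h (hy.1.trans hyw.2) (hw.1.trans hyw.2) (hy'.1.trans hyw.2)
      (hy.1.trans hyz.2) (hz.1.trans hyz.2)
  · intro z hz hyz
    have hyw' : JEq (y' * w) v₀ := by rw [← h]; exact hyw
    exact keyK hP h.symm (hy'.1.trans hyw'.2) (hw.1.trans hyw'.2) (hy.1.trans hyw'.2)
      (hy'.1.trans hyz.2) (hz.1.trans hyz.2)

lemma act_inj [Finite M] (hP : Pat M) {v₀ : M} (hr : Reg v₀) (c : M) (P P' R : M → Option M)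
    (h : act v₀ c P = some R) (h' : act v₀ c P' = some R) : P = P' := by
  have h1 : ∀ P, act v₀ c P = some R →
      ∃ y, JEq y v₀ ∧ JEq (y * c) v₀ ∧ Fut v₀ y = P ∧ Fut v₀ (y * c) = R := by
    intro P hP
    unfold act at hP
    split_ifs at hP with h2
    obtain ⟨h3, h4, h5⟩ := h2.choose_spec
    exact ⟨h2.choose, h3, h4, h5, Option.some_injective _ hP⟩
  obtain ⟨y, hy, hyc, hyP, hyR⟩ := h1 P h
  obtain ⟨y', hy', hyc', hyP', hyR'⟩ := h1 P' h'
  obtain ⟨w, hw1, hw2⟩ := exW hr hyc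
  have h2 := Fut_apply (hyR.trans hyR'.symm) hw1 hw2
  have h3 : JEq (c * w) v₀ := by
    apply JEq.of_mul_right (y := y)
    · rw [← mul_assoc]; exact hw2
    · exact hw1.1.mul_left c
  rw [← hyP, ← hyP']
  refine Fut_eq_of hP hy hy' h3 ?_ ?_
  · rw [← mul_assoc, ← mul_assoc]
    exact h2.symm
  · rw [← mul_assoc]
    exact hw2

section prog

variable {S : Type} (c : ℕ → S → M)

/-- The program on the futures. -/
noncomputable def fprog (v₀ : M) (σ : ℕ) : ℕ → S → (M → Option M) → Option (M → Option M) :=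
  fun k s P => act v₀ (c (σ + k) s) P

variable {c}

lemma seg_succ (x : ℕ → S) {s i : ℕ} (h : s ≤ i) :
    seg c x s (i + 1) = seg c x s i * c i (x i) := by
  rw [← seg_mul c x h (Nat.le_succ i), Nat.succ_eq_add_one, seg_one]

lemma run_fprog {v₀ y : M} (hr : Reg v₀) (hy : JEq y v₀) (σ : ℕ) (x : ℕ → S) (k : ℕ) :
    (JEq (y * seg c x σ (σ + k)) v₀ → run (fprog c v₀ σ) (Fut v₀ y) (fun j => x (σ + j)) k =
      some (Fut v₀ (y * seg c x σ (σ + k)))) ∧
    (¬ JEq (y * seg c x σ (σ + k)) v₀ →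
      run (fprog c v₀ σ) (Fut v₀ y) (fun j => x (σ + j)) k = none) := by
  induction k with
  | zero =>
    rw [add_zero, seg_self, mul_one]
    exact ⟨fun _ => rfl, fun h => absurd hy h⟩
  | succ k ih =>
    have h1 : y * seg c x σ (σ + (k + 1)) = y * seg c x σ (σ + k) * c (σ + k) (x (σ + k)) := by
      rw [← add_assoc, seg_succ x (Nat.le_add_right σ k), mul_assoc]
    constructor
    · intro h
      have h2 : JEq (y * seg c x σ (σ + k)) v₀ := by
        refine ⟨hy.1.mul_right _, ?_⟩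
        rw [h1] at h
        exact h.2.trans (JLe.of_mul _ _)
      rw [run, ih.1 h2, Option.bind_some, fprog, act_some hr h2 (by rw [← h1]; exact h), h1]
    · intro h
      by_cases h2 : JEq (y * seg c x σ (σ + k)) v₀
      · rw [run, ih.1 h2, Option.bind_some, fprog, act_none hr h2 (by rw [← h1]; exact h)]
      · rw [run, ih.2 h2, Option.bind_none]

end prog

section middle

variable {S : Type}

open Classical in
/-- The number of differences on `s ≤ i < t`. -/
noncomputable def hdI (w u : ℕ → S) (s t : ℕ) : ℕ := ((Ico s t).filter fun i => w i ≠ u i).card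

lemma hdI_congr {w w' u : ℕ → S} {s t : ℕ} (h : ∀ i, s ≤ i → i < t → w i = w' i) :
    hdI w u s t = hdI w' u s t := by
  classical
  unfold hdI
  congr 1
  apply Finset.filter_congr
  intro i hi
  rw [Finset.mem_Ico] at hi
  rw [h i hi.1 hi.2]

lemma hdI_append (w u : ℕ → S) {s r t : ℕ} (h : s ≤ r) (h' : r ≤ t) :
    hdI w u s t = hdI w u s r + hdI w u r t := by
  classical
  unfold hdI
  rw [← Finset.Ico_union_Ico_eq_Ico h h', Finset.filter_union, Finset.card_union_of_disjoint]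
  apply Finset.disjoint_filter_filter
  exact Finset.Ico_disjoint_Ico_consecutive s r t

lemma hd_eq_hdI (w u : ℕ → S) (σ k : ℕ) :
    hd (fun j => w (σ + j)) (fun j => u (σ + j)) k = hdI w u σ (σ + k) := by
  induction k with
  | zero => simp [hd, hdI]
  | succ k ih =>
    rw [← add_assoc, hdI_append w u (Nat.le_add_right σ k) (Nat.le_succ _), ← ih]
    classical
    unfold hd hdI
    rw [Finset.range_add_one, Finset.filter_insert, Nat.succ_eq_add_one, Nat.Ico_succ_singleton]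
    by_cases h : w (σ + k) ≠ u (σ + k)
    · rw [if_pos h, Finset.card_insert_of_notMem (by simp), Finset.filter_singleton, if_pos h,
        Finset.card_singleton]
    · rw [if_neg h, Finset.filter_singleton, if_neg h, Finset.card_empty, add_zero]

variable [Fintype S] [Nonempty S]

theorem middle [Finite M] (hP : Pat M) (ε : ℝ) (hε : 0 < ε) : ∃ d : ℕ, ∀ (n σ τ : ℕ)
    (c : ℕ → S → M) (u : ℕ → S) (v₀ y z m : M), σ ≤ τ → τ ≤ n → Reg v₀ → JEq y v₀ → JEq z v₀ →
    JEq m v₀ → ε ≤ prob (fun x : Fin n → S => y * seg c (lft x) σ τ * z = m) →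
    ∃ w, y * seg c w σ τ * z = m ∧ hdI w u σ τ ≤ d := by
  classical
  have : Fintype M := Fintype.ofFinite M
  obtain ⟨d, hd⟩ := exists_near (M → Option M) S ε hε
  refine ⟨d, ?_⟩
  intro n σ τ c u v₀ y z m hστ hτ hr hy hz hm hprob
  have hτ' : σ + (τ - σ) = τ := by omega
  have hin : ∀ x : ℕ → S, y * seg c x σ τ * z = m → JEq (y * seg c x σ τ) v₀ := by
    intro x hx
    refine ⟨hy.1.mul_right _, hm.2.trans ?_⟩
    rw [← hx]
    exact JLe.of_mul _ _
  obtain ⟨x₀, hx₀⟩ : ∃ x₀ : Fin n → S, y * seg c (lft x₀) σ τ * z = m := by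
    by_contra hcon
    push Not at hcon
    have h1 : prob (fun x : Fin n → S => y * seg c (lft x) σ τ * z = m) ≤
        prob (fun _ : Fin n → S => False) := prob_mono fun x hx => hcon x hx
    rw [prob_false] at h1
    linarith
  obtain ⟨w', hw1, hw2⟩ := hd n σ τ (fprog c v₀ σ) (Fut v₀ y) (Fut v₀ (y * seg c (lft x₀) σ τ))
    (fun j => u (σ + j)) hστ hτ (fun i s P P' R => act_inj hP hr _ P P' R) (by
      refine hprob.trans (prob_mono ?_)
      intro x hx
      have h1 := (run_fprog (c := c) hr hy σ (lft x) (τ - σ)).1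
      rw [hτ'] at h1
      have h2 := h1 (hin _ hx)
      change run (fprog c v₀ σ) (Fut v₀ y) (fun j => lft x (σ + j)) (τ - σ) = _
      rw [h2]
      congr 1
      refine Fut_eq_of hP (hin _ hx) (hin _ hx₀) hz (by rw [hx, hx₀]) (by rw [hx]; exact hm))
  have hww : (fun j => (fun i => w' (i - σ)) (σ + j)) = w' := by
    funext j
    simp
  refine ⟨fun i => w' (i - σ), ?_, ?_⟩
  · have h1 := run_fprog (c := c) hr hy σ (fun i => w' (i - σ)) (τ - σ)
    rw [hτ', hww, hw1] at h1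
    have h2 : JEq (y * seg c (fun i => w' (i - σ)) σ τ) v₀ := by
      by_contra hcon
      exact absurd (h1.2 hcon) (by simp)
    have h3 := Option.some_injective _ (h1.1 h2)
    have h4 := Fut_apply h3 hz (by rw [hx₀]; exact hm)
    rw [h4, hx₀]
  · rw [← hτ', ← hd_eq_hdI, hww]
    exact hw2

end middle

end Helper68.EDA
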