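import Pool.Agent.Helper68.EDA.Cls
import Pool.Agent.Helper68.DS.Final

set_option autoImplicit false
set_option linter.unusedSectionVars false

/-!
Up to a small probability the products of the prefixes change their `J`-class at a bounded number
of times only.
-/

namespace Helper68.EDA

open Helper68.DS Finset

variable {M : Type} [Monoid M]

lemma HLe_congr {h : ℕ} {y y' : M} (hy : HLe h y) (h1 : JEq y y') : HLe h y' := by
  cases h with
  | zero => exact hy.elim
  | succ h =>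
    intro z hz hz'
    exact hy z (h1.1.trans hz) fun h2 => hz' (h2.trans h1.1)

variable (M) (S : Type) [Fintype S] [Nonempty S]

/-- Drops from elements of height at most `h`. -/
def DropClaim (h : ℕ) : Prop := ∀ δ : ℝ, 0 < δ → ∃ K : ℕ, ∀ (n : ℕ) (c : ℕ → S → M) (s : ℕ),
  s ≤ n → ∃ T : Finset ℕ, T.card ≤ K ∧ prob (fun x : Fin n → S => ∃ i, s ≤ i ∧ i < n ∧ i ∉ T ∧
    HLe h (seg c (lft x) s i) ∧ ¬ JLe (seg c (lft x) s i) (seg c (lft x) s (i + 1))) ≤ δ

/-- Drops from the `J`-class of `y`. -/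
def LocalClaim (y : M) : Prop := ∀ δ : ℝ, 0 < δ → ∃ K : ℕ, ∀ (n : ℕ) (c : ℕ → S → M) (s : ℕ),
  s ≤ n → ∃ T : Finset ℕ, T.card ≤ K ∧ prob (fun x : Fin n → S => ∃ i, s ≤ i ∧ i < n ∧ i ∉ T ∧
    JLe y (y * seg c (lft x) s i) ∧ ¬ JLe y (y * seg c (lft x) s (i + 1))) ≤ δ

variable {M S}

lemma local_reg [Finite M] (hP : Pat M) {y : M} (hy : Reg y) : LocalClaim M S y := by
  classical
  have : Fintype M := Fintype.ofFinite M
  intro δ hδ
  obtain ⟨K, hK⟩ := exists_heavy_prob (M → Option M) S δ hδ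
  refine ⟨K, ?_⟩
  intro n c s hs
  obtain ⟨H, T, hT, ha, hl⟩ := hK n s (fprog c y s) (Fut y y) hs
    (fun i s' P P' R => act_inj hP hy _ P P' R)
  refine ⟨T.image (s + ·), Finset.card_image_le.trans hT, le_trans (prob_mono ?_) hl⟩
  rintro x ⟨i, hsi, hin, hiT, h1, h2⟩
  have hyy : JEq y y := ⟨JLe.refl y, JLe.refl y⟩
  obtain ⟨k, rfl⟩ : ∃ k, i = s + k := ⟨i - s, by omega⟩
  have h3 := (run_fprog (c := c) hy hyy s (lft x) k).1 ⟨JLe.of_mul _ _, h1⟩
  have h4 := (run_fprog (c := c) hy hyy s (lft x) (k + 1)).2 fun h => h2 h.2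
  refine ⟨k, by omega, _, h3, fun hcon => ?_⟩
  have hkT : k ∉ T := fun h => hiT (Finset.mem_image_of_mem _ h)
  obtain ⟨r, hr, hr'⟩ := ha k (by omega) hkT (lft x (s + k)) _ hcon
  rw [run, h3, Option.bind_some, hr'] at h4
  exact absurd h4 (by simp)

lemma local_nonreg [Finite M] {h : ℕ} (hD : DropClaim M S h) {y : M} (hy : ¬ Reg y)
    (hh : HLe (h + 1) y) : LocalClaim M S y := by
  intro δ hδ
  obtain ⟨K, hK⟩ := hD δ hδ
  refine ⟨K, ?_⟩
  intro n c s hs
  obtain ⟨T, hT, hl⟩ := hK n c s hs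
  refine ⟨T, hT, le_trans (prob_mono ?_) hl⟩
  rintro x ⟨i, hsi, hin, hiT, h1, h2⟩
  refine ⟨i, hsi, hin, hiT, ?_, ?_⟩
  · apply hh
    · exact h1.trans (JLe.of_mul' _ _)
    · intro h3
      apply hy
      exact reg_of (w := 1) (k := seg c (lft x) s i) (by rw [one_mul]; exact h1) h3
  · intro h3
    apply h2
    rw [seg_succ (lft x) hsi] at h3 ⊢
    obtain ⟨d, hd⟩ := stabR h3
    refine h1.trans ⟨1, d, ?_⟩
    rw [one_mul]
    calc y * seg c (lft x) s i = y * (seg c (lft x) s i * c i (lft x i) * d) := by rw [hd]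
      _ = y * (seg c (lft x) s i * c i (lft x i)) * d := by simp only [mul_assoc]

lemma seg_anti (c : ℕ → S → M) (x : ℕ → S) {s i j : ℕ} (h : s ≤ i) (h' : i ≤ j) :
    JLe (seg c x s j) (seg c x s i) := by
  rw [← seg_mul c x h h']
  exact JLe.of_mul _ _

lemma drop_step [Finite M] {h : ℕ} (hD : DropClaim M S h)
    (hL : ∀ y : M, HLe (h + 1) y → LocalClaim M S y) : DropClaim M S (h + 1) := by
  classical
  have : Fintype M := Fintype.ofFinite M
  intro δ hδ
  obtain ⟨K₀, hK₀⟩ := hD (δ / 2) (by positivity)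
  set δ' : ℝ := δ / 2 / (((K₀ : ℝ) + 1) * Fintype.card M) with hδ'
  have hM : (0 : ℝ) < Fintype.card M := by exact_mod_cast Fintype.card_pos (α := M)
  have hδ0 : 0 < δ' := by positivity
  have hL' : ∀ y : M, ∃ K : ℕ, HLe (h + 1) y → ∀ (n : ℕ) (c : ℕ → S → M) (s : ℕ),
      s ≤ n → ∃ T : Finset ℕ, T.card ≤ K ∧ prob (fun x : Fin n → S =>
        ∃ i, s ≤ i ∧ i < n ∧ i ∉ T ∧ JLe y (y * seg c (lft x) s i) ∧
          ¬ JLe y (y * seg c (lft x) s (i + 1))) ≤ δ' := by
    intro y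
    by_cases hy : HLe (h + 1) y
    · obtain ⟨K, hK⟩ := hL y hy δ' hδ0
      exact ⟨K, fun _ => hK⟩
    · exact ⟨0, fun h => absurd h hy⟩
  choose Ky hKy using hL'
  refine ⟨K₀ + (K₀ + 1) * ∑ y, Ky y, ?_⟩
  intro n c s hs
  obtain ⟨T₀, hT₀, hl₀⟩ := hK₀ n c s hs
  have hTy : ∀ (σ : ℕ) (y : M), ∃ T : Finset ℕ, T.card ≤ Ky y ∧ (HLe (h + 1) y → σ ≤ n →
      prob (fun x : Fin n → S => ∃ i, σ ≤ i ∧ i < n ∧ i ∉ T ∧
        JLe y (y * seg c (lft x) σ i) ∧ ¬ JLe y (y * seg c (lft x) σ (i + 1))) ≤ δ') := by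
    intro σ y
    by_cases hy : HLe (h + 1) y ∧ σ ≤ n
    · obtain ⟨T, hT, hl⟩ := hKy y hy.1 n c σ hy.2
      exact ⟨T, hT, fun _ _ => hl⟩
    · refine ⟨∅, by simp, fun h1 h2 => absurd ⟨h1, h2⟩ hy⟩
  choose Ty hTy1 hTy2 using hTy
  set G₀ : Finset ℕ := insert s (T₀.image (· + 1)) with hG
  have hGc : G₀.card ≤ K₀ + 1 := by
    refine (Finset.card_insert_le _ _).trans ?_
    have := (Finset.card_image_le (s := T₀) (f := (· + 1))).trans hT₀
    omega
  refine ⟨T₀ ∪ G₀.biUnion fun σ => Finset.univ.biUnion fun y => Ty σ y, ?_, ?_⟩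
  · refine (Finset.card_union_le _ _).trans (add_le_add hT₀ ?_)
    refine Finset.card_biUnion_le.trans ?_
    calc ∑ σ ∈ G₀, (Finset.univ.biUnion fun y => Ty σ y).card ≤ ∑ _σ ∈ G₀, ∑ y, Ky y := by
          apply Finset.sum_le_sum
          intro σ _
          refine Finset.card_biUnion_le.trans ?_
          exact Finset.sum_le_sum fun y _ => hTy1 σ y
      _ = G₀.card * ∑ y, Ky y := by rw [Finset.sum_const, smul_eq_mul]
      _ ≤ (K₀ + 1) * ∑ y, Ky y := Nat.mul_le_mul_right _ hGc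
  · -- the union bound
    let E : ℕ × M → (Fin n → S) → Prop := fun p x => HLe (h + 1) p.2 ∧ p.1 ≤ n ∧
      ∃ i, p.1 ≤ i ∧ i < n ∧ i ∉ Ty p.1 p.2 ∧ JLe p.2 (p.2 * seg c (lft x) p.1 i) ∧
        ¬ JLe p.2 (p.2 * seg c (lft x) p.1 (i + 1))
    have hincl : prob (fun x : Fin n → S => ∃ i, s ≤ i ∧ i < n ∧
        i ∉ T₀ ∪ G₀.biUnion (fun σ => Finset.univ.biUnion fun y => Ty σ y) ∧
        HLe (h + 1) (seg c (lft x) s i) ∧
        ¬ JLe (seg c (lft x) s i) (seg c (lft x) s (i + 1))) ≤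
        prob (fun x : Fin n → S => (∃ i, s ≤ i ∧ i < n ∧ i ∉ T₀ ∧
          HLe h (seg c (lft x) s i) ∧ ¬ JLe (seg c (lft x) s i) (seg c (lft x) s (i + 1))) ∨
          ∃ p ∈ G₀ ×ˢ (Finset.univ : Finset M), E p x) := by
      apply prob_mono
      rintro x ⟨i, hsi, hin, hiT, hh, hdrop⟩
      rw [Finset.mem_union, not_or] at hiT
      obtain ⟨hiT₀, hiT₁⟩ := hiT
      have hex : ∃ j, s ≤ j ∧ JLe (seg c (lft x) s j) (seg c (lft x) s i) :=
        ⟨i, hsi, JLe.refl _⟩
      obtain ⟨hj1, hj2⟩ := Nat.find_spec hex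
      have hmin := fun k => Nat.find_min hex (m := k)
      have hji : Nat.find hex ≤ i := Nat.find_le ⟨hsi, JLe.refl _⟩
      set j := Nat.find hex with hj
      clear_value j
      by_cases hjG : j ∈ G₀
      · right
        refine ⟨(j, seg c (lft x) s j), ?_, ?_, by omega, i, hji, hin, ?_, ?_, ?_⟩
        · rw [Finset.mem_product]
          exact ⟨hjG, Finset.mem_univ _⟩
        · exact HLe_congr hh ⟨seg_anti c (lft x) hj1 hji, hj2⟩
        · intro hcon
          apply hiT₁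
          rw [Finset.mem_biUnion]
          refine ⟨j, hjG, ?_⟩
          rw [Finset.mem_biUnion]
          exact ⟨seg c (lft x) s j, Finset.mem_univ _, hcon⟩
        · change JLe (seg c (lft x) s j) (seg c (lft x) s j * seg c (lft x) j i)
          rw [seg_mul c (lft x) hj1 hji]
          exact hj2
        · change ¬ JLe (seg c (lft x) s j) (seg c (lft x) s j * seg c (lft x) j (i + 1))
          rw [seg_mul c (lft x) hj1 (by omega)]
          intro hcon
          exact hdrop ((seg_anti c (lft x) hj1 hji).trans hcon)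
      · left
        have hjs : s < j := by
          rcases Nat.eq_or_lt_of_le hj1 with h1 | h1
          · exfalso
            apply hjG
            rw [← h1]
            exact Finset.mem_insert_self _ _
          · exact h1
        obtain ⟨l, rfl⟩ : ∃ l, j = l + 1 := ⟨j - 1, by omega⟩
        have hl1 : ¬ JLe (seg c (lft x) s l) (seg c (lft x) s i) := fun hcon =>
          hmin l (Nat.lt_succ_self l) ⟨by omega, hcon⟩
        refine ⟨l, by omega, by omega, ?_, ?_, ?_⟩
        · intro hcon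
          apply hjG
          rw [hG, Finset.mem_insert]
          exact Or.inr (Finset.mem_image.2 ⟨l, hcon, rfl⟩)
        · exact hh _ (seg_anti c (lft x) (by omega) (by omega)) hl1
        · intro hcon
          exact hl1 (hcon.trans hj2)
    refine hincl.trans ((prob_or _ _).trans ?_)
    have hsum : prob (fun x : Fin n → S => ∃ p ∈ G₀ ×ˢ (Finset.univ : Finset M), E p x) ≤
        δ / 2 := by
      refine (prob_union _ E).trans ?_
      calc ∑ p ∈ G₀ ×ˢ (Finset.univ : Finset M), prob (E p) ≤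
          ∑ _p ∈ G₀ ×ˢ (Finset.univ : Finset M), δ' := by
            apply Finset.sum_le_sum
            rintro ⟨σ, y⟩ _
            by_cases hy : HLe (h + 1) y ∧ σ ≤ n
            · exact (prob_mono fun x hx => hx.2.2).trans (hTy2 σ y hy.1 hy.2)
            · have h1 : prob (E (σ, y)) ≤ prob (fun _ : Fin n → S => False) :=
                prob_mono fun x hx => hy ⟨hx.1, hx.2.1⟩
              rw [prob_false] at h1
              exact h1.trans hδ0.le
        _ = (G₀.card * Fintype.card M : ℕ) * δ' := by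
            rw [Finset.sum_const, Finset.card_product, Finset.card_univ, nsmul_eq_mul]
        _ ≤ (((K₀ : ℝ) + 1) * Fintype.card M) * δ' := by
            apply mul_le_mul_of_nonneg_right _ hδ0.le
            push_cast
            apply mul_le_mul_of_nonneg_right _ hM.le
            exact_mod_cast hGc
        _ = δ / 2 := by
            rw [hδ']
            field_simp
    linarith

theorem dropClaim [Finite M] (hP : Pat M) (h : ℕ) : DropClaim M S h := by
  induction h with
  | zero =>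
    intro δ hδ
    refine ⟨0, fun n c s _ => ⟨∅, by simp, ?_⟩⟩
    have h1 : prob (fun x : Fin n → S => ∃ i, s ≤ i ∧ i < n ∧ i ∉ (∅ : Finset ℕ) ∧
        HLe 0 (seg c (lft x) s i) ∧ ¬ JLe (seg c (lft x) s i) (seg c (lft x) s (i + 1))) ≤
        prob (fun _ : Fin n → S => False) := prob_mono fun x ⟨i, _, _, _, h, _⟩ => h
    rw [prob_false] at h1
    exact h1.trans hδ.le
  | succ h ih =>
    apply drop_step ih
    intro y hy
    by_cases hr : Reg y
    · exact local_reg hP hr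
    · exact local_nonreg ih hr hy

/-- The prefix products drop at a bounded number of times, up to a small probability. -/
theorem drops [Finite M] (hP : Pat M) (δ : ℝ) (hδ : 0 < δ) : ∃ K : ℕ, ∀ (n : ℕ)
    (c : ℕ → S → M) (s : ℕ), s ≤ n → ∃ T : Finset ℕ, T.card ≤ K ∧
      prob (fun x : Fin n → S => ∃ i, s ≤ i ∧ i < n ∧ i ∉ T ∧
        ¬ JLe (seg c (lft x) s i) (seg c (lft x) s (i + 1))) ≤ δ := by
  obtain ⟨K, hK⟩ := dropClaim (S := S) hP (Nat.card M) δ hδ
  refine ⟨K, fun n c s hs => ?_⟩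
  obtain ⟨T, hT, hl⟩ := hK n c s hs
  refine ⟨T, hT, le_trans (prob_mono ?_) hl⟩
  rintro x ⟨i, h1, h2, h3, h4⟩
  exact ⟨i, h1, h2, h3, hle_of heightLe_card _, h4⟩

end Helper68.EDA
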