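import Pool.Agent.Helper68.EDA.Drop

set_option autoImplicit false
set_option linter.unusedSectionVars false

/-!
The products of the suffixes.
-/

namespace Helper68.EDA

open Helper68.DS Finset

variable {M : Type} [Monoid M] {S : Type} [Fintype S] [Nonempty S]

lemma JLe_op {a b : M} : JLe (MulOpposite.op a) (MulOpposite.op b) ↔ JLe a b := by
  constructor
  · rintro ⟨u, v, h⟩
    refine ⟨v.unop, u.unop, ?_⟩
    have h1 := congrArg MulOpposite.unop h
    simp only [MulOpposite.unop_op, MulOpposite.unop_mul] at h1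
    rw [h1, mul_assoc]
  · rintro ⟨u, v, h⟩
    refine ⟨MulOpposite.op v, MulOpposite.op u, ?_⟩
    rw [h, MulOpposite.op_mul, MulOpposite.op_mul, mul_assoc]

/-- The program read from the right. -/
def rprog (c : ℕ → S → M) (n : ℕ) : ℕ → S → Mᵐᵒᵖ := fun k s => MulOpposite.op (c (n - 1 - k) s)

lemma seg_rev (c : ℕ → S → M) {n : ℕ} (x : Fin n → S) {i : ℕ} : ∀ {j : ℕ}, i ≤ j → j ≤ n →
    seg (rprog c n) (lft fun k => x (Fin.rev k)) (n - j) (n - i) =
      MulOpposite.op (seg c (lft x) i j) := by
  intro j hij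
  induction j, hij using Nat.le_induction with
  | base => intro _; rw [seg_self, seg_self, MulOpposite.op_one]
  | succ j hij ih =>
    intro hj
    rw [seg_succ (lft x) hij, MulOpposite.op_mul, ← ih (by omega),
      ← seg_mul (rprog c n) _ (show n - (j + 1) ≤ n - j by omega) (show n - j ≤ n - i by omega)]
    congr 1
    have h1 : n - j = n - (j + 1) + 1 := by omega
    rw [h1, seg_one]
    unfold rprog
    have h2 : n - 1 - (n - (j + 1)) = j := by omega
    rw [h2]
    congr 2
    have h3 := lft_apply (fun k => x (Fin.rev k)) ⟨n - (j + 1), by omega⟩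
    have h4 := lft_apply x ⟨j, by omega⟩
    simp only at h3 h4
    rw [h3, h4]
    congr 1
    ext
    simp only [Fin.val_rev]
    omega

lemma prob_rev {n : ℕ} (P : (Fin n → S) → Prop) :
    prob (fun x : Fin n → S => P fun k => x (Fin.rev k)) = prob P := by
  unfold prob
  congr 2
  let e : (Fin n → S) ≃ (Fin n → S) :=
    { toFun := fun x k => x (Fin.rev k)
      invFun := fun x k => x (Fin.rev k)
      left_inv := fun x => by funext k; simp
      right_inv := fun x => by funext k; simp }
  exact Nat.card_congr (e.subtypeEquiv fun x => Iff.rfl)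

/-- The suffix products drop at a bounded number of times, up to a small probability. -/
theorem drops_left [Finite M] (hP : Pat Mᵐᵒᵖ) (δ : ℝ) (hδ : 0 < δ) : ∃ K : ℕ, ∀ (n : ℕ)
    (c : ℕ → S → M) (t : ℕ), t ≤ n → ∃ T : Finset ℕ, T.card ≤ K ∧
      prob (fun x : Fin n → S => ∃ i, i < t ∧ i ∉ T ∧
        ¬ JLe (seg c (lft x) (i + 1) t) (seg c (lft x) i t)) ≤ δ := by
  classical
  have : Finite Mᵐᵒᵖ := Finite.of_equiv M MulOpposite.opEquiv
  obtain ⟨K, hK⟩ := drops (M := Mᵐᵒᵖ) (S := S) hP δ hδ
  refine ⟨K, fun n c t ht => ?_⟩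
  obtain ⟨T, hT, hl⟩ := hK n (rprog c n) (n - t) (Nat.sub_le _ _)
  refine ⟨T.image (fun k => n - 1 - k), Finset.card_image_le.trans hT, ?_⟩
  rw [← prob_rev] at hl
  refine le_trans (prob_mono ?_) hl
  rintro x ⟨i, h1, h2, h3⟩
  refine ⟨n - (i + 1), by omega, by omega, ?_, ?_⟩
  · intro hcon
    apply h2
    rw [Finset.mem_image]
    exact ⟨_, hcon, by omega⟩
  · rw [seg_rev c x (by omega) ht]
    have h4 : n - (i + 1) + 1 = n - i := by omega
    rw [h4, seg_rev c x h1.le ht, JLe_op]
    exact h3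

end Helper68.EDA
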