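import Pool.Agent.Helper68.EDA.Dual

set_option autoImplicit false
set_option linter.unusedSectionVars false

/-!
Programs over a finite monoid whose regular products of idempotents are idempotent accept a string
near every string.
-/

namespace Helper68.EDA

open Helper68.DS Finset

variable {M : Type} [Monoid M] {S : Type}

/-- On the positions `i ≤ k < j` some string with at most `d` differences from `u` has the
product `y`. -/
def Near (c : ℕ → S → M) (u : ℕ → S) (i j d : ℕ) (y : M) : Prop :=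
  ∃ w, seg c w i j = y ∧ hdI w u i j ≤ d

lemma Near.mono {c : ℕ → S → M} {u : ℕ → S} {i j d d' : ℕ} {y : M} (h : Near c u i j d y)
    (hd : d ≤ d') : Near c u i j d' y := by
  obtain ⟨w, h1, h2⟩ := h
  exact ⟨w, h1, h2.trans hd⟩

lemma Near.append {c : ℕ → S → M} {u : ℕ → S} {i j k d d' : ℕ} {y z : M} (hij : i ≤ j)
    (hjk : j ≤ k) (h : Near c u i j d y) (h' : Near c u j k d' z) :
    Near c u i k (d + d') (y * z) := by
  obtain ⟨w, h1, h2⟩ := h
  obtain ⟨w', h1', h2'⟩ := h'
  have e1 : ∀ l, i ≤ l → l < j → (if l < j then w l else w' l) = w l := fun l _ hl => by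
    rw [if_pos hl]
  have e2 : ∀ l, j ≤ l → l < k → (if l < j then w l else w' l) = w' l := fun l hl _ => by
    rw [if_neg (by omega)]
  refine ⟨fun l => if l < j then w l else w' l, ?_, ?_⟩
  · rw [← seg_mul c _ hij hjk, seg_congr c _ w e1, seg_congr c _ w' e2, h1, h1']
  · rw [hdI_append _ u hij hjk, hdI_congr e1, hdI_congr e2]
    exact add_le_add h2 h2'

lemma Near.refl (c : ℕ → S → M) (u : ℕ → S) (i : ℕ) : Near c u i i 0 1 :=
  ⟨u, seg_self c u i, by simp [hdI]⟩

lemma Near.letter (c : ℕ → S → M) (u : ℕ → S) (i : ℕ) (s : S) :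
    Near c u i (i + 1) 1 (c i s) := by
  refine ⟨fun _ => s, seg_one c _ i, ?_⟩
  classical
  unfold hdI
  refine (Finset.card_filter_le _ _).trans ?_
  simp

variable [Fintype S] [Nonempty S]

theorem near_aux [Finite M] (hP : Pat M) (hP' : Pat Mᵐᵒᵖ) : ∀ (h : ℕ) (ε : ℝ), 0 < ε →
    ∃ d : ℕ, ∀ (n : ℕ) (c : ℕ → S → M) (u : ℕ → S) (s t : ℕ) (m : M), s ≤ t → t ≤ n →
      HLe h m → ε ≤ prob (fun x : Fin n → S => seg c (lft x) s t = m) → Near c u s t d m := by
  classical
  have : Fintype M := Fintype.ofFinite M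
  intro h
  induction h with
  | zero => intro ε _; exact ⟨0, fun n c u s t m _ _ hm => hm.elim⟩
  | succ h ih =>
    intro ε hε
    obtain ⟨K₁, hK₁⟩ := drops (M := M) (S := S) hP (ε / 4) (by positivity)
    obtain ⟨K₂, hK₂⟩ := drops_left (M := M) (S := S) hP' (ε / 4) (by positivity)
    set B : ℕ := 2 * K₁ + 2 * K₂ + 2 with hB
    have hM : (0 : ℝ) < Fintype.card M := by exact_mod_cast Fintype.card_pos (α := M)
    have hB0 : (0 : ℝ) < B := by exact_mod_cast (by omega : 0 < B)
    set η : ℝ := ε / 4 / (((B : ℝ) * B) * Fintype.card M) with hη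
    have hη0 : 0 < η := by positivity
    obtain ⟨dh, hdh⟩ := ih η hη0
    obtain ⟨dm, hdm⟩ := middle (M := M) (S := S) hP η hη0
    refine ⟨(dh + 1) + dm + (dh + 1), ?_⟩
    intro n c u s t m hst htn hm hprob
    obtain ⟨T₁, hT₁, hl₁⟩ := hK₁ n c s (hst.trans htn)
    obtain ⟨T₂, hT₂, hl₂⟩ := hK₂ n c t htn
    -- the special times
    set R : Finset ℕ := (T₁ ∪ T₁.image (· + 1)) ∪ (T₂ ∪ T₂.image (· + 1)) ∪ {s, t} with hR
    have hRc : R.card ≤ B := by
      have a1 := Finset.card_union_le ((T₁ ∪ T₁.image (· + 1)) ∪ (T₂ ∪ T₂.image (· + 1))) {s, t}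
      have a2 := Finset.card_union_le (T₁ ∪ T₁.image (· + 1)) (T₂ ∪ T₂.image (· + 1))
      have a3 := Finset.card_union_le T₁ (T₁.image (· + 1))
      have a4 := Finset.card_union_le T₂ (T₂.image (· + 1))
      have a5 := Finset.card_image_le (s := T₁) (f := (· + 1))
      have a6 := Finset.card_image_le (s := T₂) (f := (· + 1))
      have a7 : ({s, t} : Finset ℕ).card ≤ 2 := Finset.card_le_two
      rw [hR]
      omega
    have hsR : s ∈ R := by rw [hR]; simp
    have htR : t ∈ R := by rw [hR]; simp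
    have hR1 : ∀ i ∈ T₁, i ∈ R ∧ i + 1 ∈ R := by
      intro i hi
      rw [hR]
      constructor
      · apply Finset.mem_union_left
        apply Finset.mem_union_left
        exact Finset.mem_union_left _ hi
      · apply Finset.mem_union_left
        apply Finset.mem_union_left
        apply Finset.mem_union_right
        exact Finset.mem_image.2 ⟨i, hi, rfl⟩
    have hR2 : ∀ i ∈ T₂, i ∈ R ∧ i + 1 ∈ R := by
      intro i hi
      rw [hR]
      constructor
      · apply Finset.mem_union_left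
        apply Finset.mem_union_right
        exact Finset.mem_union_left _ hi
      · apply Finset.mem_union_left
        apply Finset.mem_union_right
        apply Finset.mem_union_right
        exact Finset.mem_image.2 ⟨i, hi, rfl⟩
    -- a typical string
    obtain ⟨x₀, hx₀, hgood⟩ : ∃ x₀ : Fin n → S, seg c (lft x₀) s t = m ∧
        ¬ ((∃ i, s ≤ i ∧ i < n ∧ i ∉ T₁ ∧
          ¬ JLe (seg c (lft x₀) s i) (seg c (lft x₀) s (i + 1))) ∨
          ((∃ i, i < t ∧ i ∉ T₂ ∧ ¬ JLe (seg c (lft x₀) (i + 1) t) (seg c (lft x₀) i t)) ∨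
          ∃ p ∈ (R ×ˢ R) ×ˢ (Finset.univ : Finset M),
            prob (fun x : Fin n → S => seg c (lft x) p.1.1 p.1.2 = p.2) < η ∧
            seg c (lft x₀) p.1.1 p.1.2 = p.2)) := by
      by_contra hcon
      push Not at hcon
      have h1 := prob_mono hcon
      have h2 : prob (fun x₀ : Fin n → S => ∃ p ∈ (R ×ˢ R) ×ˢ (Finset.univ : Finset M),
            prob (fun x : Fin n → S => seg c (lft x) p.1.1 p.1.2 = p.2) < η ∧
            seg c (lft x₀) p.1.1 p.1.2 = p.2) ≤ ε / 4 := by
        refine (prob_union _ (fun (p : (ℕ × ℕ) × M) (x₀ : Fin n → S) =>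
            prob (fun x : Fin n → S => seg c (lft x) p.1.1 p.1.2 = p.2) < η ∧
            seg c (lft x₀) p.1.1 p.1.2 = p.2)).trans ?_
        calc ∑ p ∈ (R ×ˢ R) ×ˢ (Finset.univ : Finset M), prob (fun x₀ : Fin n → S =>
            prob (fun x : Fin n → S => seg c (lft x) p.1.1 p.1.2 = p.2) < η ∧
            seg c (lft x₀) p.1.1 p.1.2 = p.2) ≤
            ∑ _p ∈ (R ×ˢ R) ×ˢ (Finset.univ : Finset M), η := by
              apply Finset.sum_le_sum
              intro p _
              by_cases hp : prob (fun x : Fin n → S => seg c (lft x) p.1.1 p.1.2 = p.2) < η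
              · exact (prob_mono fun x hx => hx.2).trans hp.le
              · have h3 : prob (fun x₀ : Fin n → S =>
                    prob (fun x : Fin n → S => seg c (lft x) p.1.1 p.1.2 = p.2) < η ∧
                    seg c (lft x₀) p.1.1 p.1.2 = p.2) ≤ prob (fun _ : Fin n → S => False) :=
                  prob_mono fun x hx => hp hx.1
                rw [prob_false] at h3
                exact h3.trans hη0.le
          _ = ((R.card * R.card) * Fintype.card M : ℕ) * η := by
              rw [Finset.sum_const, Finset.card_product, Finset.card_product, Finset.card_univ,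
                nsmul_eq_mul]
          _ ≤ (((B : ℝ) * B) * Fintype.card M) * η := by
              apply mul_le_mul_of_nonneg_right _ hη0.le
              push_cast
              have h3 : (R.card : ℝ) ≤ B := by exact_mod_cast hRc
              gcongr
          _ = ε / 4 := by
              rw [hη]
              field_simp
      have h3 := (h1.trans (prob_or _ _))
      have h4 := prob_or (fun x₀ : Fin n → S => ∃ i, i < t ∧ i ∉ T₂ ∧
        ¬ JLe (seg c (lft x₀) (i + 1) t) (seg c (lft x₀) i t)) (fun x₀ : Fin n → S =>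
          ∃ p ∈ (R ×ˢ R) ×ˢ (Finset.univ : Finset M),
            prob (fun x : Fin n → S => seg c (lft x) p.1.1 p.1.2 = p.2) < η ∧
            seg c (lft x₀) p.1.1 p.1.2 = p.2)
      linarith
    rw [not_or, not_or] at hgood
    obtain ⟨hg1, hg2, hg3⟩ := hgood
    set X : ℕ → S := lft x₀ with hX
    have hdrop1 : ∀ i, s ≤ i → i < t → ¬ JLe (seg c X s i) (seg c X s (i + 1)) → i ∈ T₁ := by
      intro i h1 h2 h3
      by_contra hcon
      exact hg1 ⟨i, h1, by omega, hcon, h3⟩
    have hdrop2 : ∀ i, i < t → ¬ JLe (seg c X (i + 1) t) (seg c X i t) → i ∈ T₂ := by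
      intro i h1 h3
      by_contra hcon
      exact hg2 ⟨i, h1, hcon, h3⟩
    have htyp : ∀ i ∈ R, ∀ j ∈ R,
        η ≤ prob (fun x : Fin n → S => seg c (lft x) i j = seg c X i j) := by
      intro i hi j hj
      by_contra hcon
      push Not at hcon
      apply hg3
      refine ⟨((i, j), seg c X i j), ?_, hcon, rfl⟩
      rw [Finset.mem_product, Finset.mem_product]
      exact ⟨⟨hi, hj⟩, Finset.mem_univ _⟩
    have hfac : ∀ i j, s ≤ i → i ≤ j → j ≤ t → JLe m (seg c X i j) := by
      intro i j hi hij hj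
      rw [← hx₀, ← seg_mul c X hi (hij.trans hj), ← seg_mul c X hij hj]
      exact ⟨_, _, (mul_assoc _ _ _).symm⟩
    have habove : ∀ i ∈ R, ∀ j ∈ R, s ≤ i → i ≤ j → j ≤ t → ¬ JLe (seg c X i j) m →
        Near c u i j dh (seg c X i j) := by
      intro i hi j hj hsi hij hjt hn
      exact hdh n c u i j _ hij (hjt.trans htn) (hm _ (hfac i j hsi hij hjt) hn)
        (htyp i hi j hj)
    -- the first time when the prefix is in the ideal of `m`
    have hex : ∃ i, s ≤ i ∧ i ≤ t ∧ JLe (seg c X s i) m :=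
      ⟨t, hst, le_rfl, by rw [hx₀]; exact JLe.refl m⟩
    obtain ⟨hσ1, hσ2, hσ3⟩ := Nat.find_spec hex
    have hσmin := fun k => Nat.find_min hex (m := k)
    set σ := Nat.find hex with hσ
    clear_value σ
    have hpre : ∀ k, s ≤ k → k < σ → ¬ JLe (seg c X s k) m := fun k h1 h2 h3 =>
      hσmin k h2 ⟨h1, by omega, h3⟩
    have hσR : σ ∈ R ∧ Near c u s σ (dh + 1) (seg c X s σ) := by
      rcases Nat.eq_or_lt_of_le hσ1 with h1 | h1
      · rw [← h1, seg_self]
        exact ⟨hsR, (Near.refl c u s).mono (Nat.zero_le _)⟩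
      · obtain ⟨l, rfl⟩ : ∃ l, σ = l + 1 := ⟨σ - 1, by omega⟩
        have h2 := hpre l (by omega) (Nat.lt_succ_self l)
        have h3 : l ∈ T₁ := hdrop1 l (by omega) (by omega) fun h4 => h2 (h4.trans hσ3)
        refine ⟨(hR1 l h3).2, ?_⟩
        rw [seg_succ X (by omega)]
        exact (habove s hsR l (hR1 l h3).1 le_rfl (by omega) (by omega) h2).append (by omega)
          (Nat.le_succ l) (Near.letter c u l (X l))
    -- the last time when the suffix is in the ideal of `m`
    have hτ1 : s ≤ Nat.findGreatest (fun i => s ≤ i ∧ JLe (seg c X i t) m) t ∧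
        JLe (seg c X (Nat.findGreatest (fun i => s ≤ i ∧ JLe (seg c X i t) m) t) t) m :=
      Nat.findGreatest_spec (P := fun i => s ≤ i ∧ JLe (seg c X i t) m) hst
        ⟨le_rfl, by rw [hx₀]; exact JLe.refl m⟩
    have hτ2 := Nat.findGreatest_le (P := fun i => s ≤ i ∧ JLe (seg c X i t) m) t
    have hτmax : ∀ k, Nat.findGreatest (fun i => s ≤ i ∧ JLe (seg c X i t) m) t < k → k ≤ t →
        ¬ (s ≤ k ∧ JLe (seg c X k t) m) := fun k h1 h2 => Nat.findGreatest_is_greatest h1 h2
    set τ := Nat.findGreatest (fun i => s ≤ i ∧ JLe (seg c X i t) m) t with hτ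
    clear_value τ
    obtain ⟨hτs, hτJ⟩ := hτ1
    by_cases hcase : σ ≤ τ
    · have hτR : τ ∈ R ∧ Near c u τ t (dh + 1) (seg c X τ t) := by
        rcases Nat.eq_or_lt_of_le hτ2 with h1 | h1
        · rw [h1, seg_self]
          exact ⟨htR, (Near.refl c u t).mono (Nat.zero_le _)⟩
        · have h2 : ¬ JLe (seg c X (τ + 1) t) m := fun h3 =>
            hτmax (τ + 1) (Nat.lt_succ_self τ) h1 ⟨by omega, h3⟩
          have h3 : τ ∈ T₂ := hdrop2 τ h1 fun h4 => h2 (h4.trans hτJ)
          refine ⟨(hR2 τ h3).1, ?_⟩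
          rw [← seg_mul c X (Nat.le_succ τ) h1, Nat.succ_eq_add_one, seg_one]
          exact ((Near.letter c u τ (X τ)).append (Nat.le_succ τ) h1
            (habove (τ + 1) (hR2 τ h3).2 t htR (by omega) h1 le_rfl h2)).mono (by omega)
      have hprod : seg c X s σ * seg c X σ τ * seg c X τ t = m := by
        rw [seg_mul c X hσ1 hcase, seg_mul c X (hσ1.trans hcase) hτ2, hx₀]
      have hy1 : JLe m (seg c X s σ) := hfac s σ le_rfl hσ1 hσ2
      have hz1 : JLe m (seg c X τ t) := hfac τ t hτs hτ2 le_rfl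
      have hreg : Reg (seg c X s σ) := by
        apply reg_of (w := seg c X σ τ) (k := seg c X τ t)
        · rw [← mul_assoc, hprod]
          exact hσ3
        · exact hτJ.trans hy1
      obtain ⟨w, hw1, hw2⟩ := hdm n σ τ c u (seg c X s σ) (seg c X s σ) (seg c X τ t) m hcase
        (hτ2.trans htn) hreg ⟨JLe.refl _, JLe.refl _⟩ ⟨hτJ.trans hy1, hσ3.trans hz1⟩
        ⟨hy1, hσ3⟩ (by
          refine (htyp σ hσR.1 τ hτR.1).trans (prob_mono ?_)
          intro x hx
          rw [hx, hprod])
      have h1 := (hσR.2.append hσ1 hcase ⟨w, rfl, hw2⟩).append (hσ1.trans hcase) hτ2 hτR.2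
      rw [hw1] at h1
      exact h1
    · have h2 : ¬ JLe (seg c X σ t) m := fun h3 => hτmax σ (by omega) hσ2 ⟨hσ1, h3⟩
      have h3 := hσR.2.append hσ1 hσ2 (habove σ hσR.1 t htR hσ1 hσ2 le_rfl h2)
      rw [seg_mul c X hσ1 hσ2, hx₀] at h3
      exact h3.mono (by omega)

theorem near_main [Finite M] (hE : IsEDA M) (ε : ℝ) (hε : 0 < ε) : ∃ d : ℕ, ∀ (n : ℕ)
    (c : ℕ → S → M) (u : ℕ → S) (m : M),
      ε ≤ prob (fun x : Fin n → S => seg c (lft x) 0 n = m) → Near c u 0 n d m := by
  obtain ⟨d, hd⟩ := near_aux (S := S) hE.pat hE.pat_op (Nat.card M) ε hε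
  exact ⟨d, fun n c u m h => hd n c u 0 n m (Nat.zero_le _) le_rfl (hle_of heightLe_card m) h⟩

end Helper68.EDA
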