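import Pool.Agent.Helper68.EDA.NegProg
import Pool.Agent.Helper68.DS.Neg

set_option autoImplicit false
set_option linter.unusedSectionVars false

/-!
The acceptance probabilities of the programs made of blocks.
-/

namespace Helper68.EDA

open Helper68.DS

/-- The string with the given rows. -/
def ofRows {N w : ℕ} (Y : Fin N → Fin w → Bool) : Fin (N * w) → Bool := fun i =>
  Y (finProdFinEquiv.symm i).1 (finProdFinEquiv.symm i).2

lemma lft_ofRows {N w : ℕ} (Y : Fin N → Fin w → Bool) {j k : ℕ} (hj : j < N) (hk : k < w) :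
    lft (ofRows Y) (j * w + k) = Y ⟨j, hj⟩ ⟨k, hk⟩ := by
  have hlt : j * w + k < N * w := by
    calc j * w + k < j * w + w := by omega
      _ = (j + 1) * w := by ring
      _ ≤ N * w := Nat.mul_le_mul_right _ hj
  have h1 := lft_apply (ofRows Y) ⟨j * w + k, hlt⟩
  have h2 : (⟨j * w + k, hlt⟩ : Fin (N * w)) = finProdFinEquiv (⟨j, hj⟩, ⟨k, hk⟩) := by
    ext
    change j * w + k = k + w * j
    ring
  change lft (ofRows Y) (j * w + k) = _ at h1
  rw [h1, h2]
  unfold ofRows
  rw [Equiv.symm_apply_apply]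

lemma ofRows_injective {N w : ℕ} : Function.Injective (ofRows (N := N) (w := w)) := by
  intro Y Y' h
  funext a
  funext b
  have h1 := congrFun h (finProdFinEquiv (a, b))
  unfold ofRows at h1
  rw [Equiv.symm_apply_apply] at h1
  exact h1

lemma rows_le {N w : ℕ} (R : (Fin N → Fin w → Bool) → Prop) (P : (Fin (N * w) → Bool) → Prop)
    (h : ∀ Y, R Y → P (ofRows Y)) :
    (Nat.card {Y : Fin N → Fin w → Bool // R Y} : ℝ) / ((2 : ℝ) ^ w) ^ N ≤ prob P := by
  unfold prob
  have e : ((Fintype.card Bool : ℕ) : ℝ) ^ (N * w) = ((2 : ℝ) ^ w) ^ N := by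
    rw [Fintype.card_bool, mul_comm N w, pow_mul]
    norm_num
  rw [e]
  have h1 : Nat.card {Y : Fin N → Fin w → Bool // R Y} ≤
      Nat.card {x : Fin (N * w) → Bool // P x} := by
    apply Nat.card_le_card_of_injective (fun Y => (⟨ofRows Y.1, h Y.1 Y.2⟩ :
      {x : Fin (N * w) → Bool // P x}))
    intro Y Y' h
    exact Subtype.ext (ofRows_injective (congrArg Subtype.val h))
  gcongr

lemma card_none (A : Type) [Fintype A] (T : A) (N : ℕ) :
    (Fintype.card A - 1) ^ N ≤ Nat.card {Y : Fin N → A // ∀ j, Y j ≠ T} := by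
  classical
  have h1 : Nat.card (Fin N → {a : A // a ≠ T}) = (Fintype.card A - 1) ^ N := by
    rw [Nat.card_fun, Nat.card_fin, Nat.card_eq_fintype_card, Fintype.card_subtype,
      Finset.filter_ne', Finset.card_erase_of_mem (Finset.mem_univ _), Finset.card_univ]
  rw [← h1]
  apply Nat.card_le_card_of_injective (fun Y => (⟨fun j => (Y j).1, fun j => (Y j).2⟩ :
    {Y : Fin N → A // ∀ j, Y j ≠ T}))
  intro Y Y' h
  funext j
  apply Subtype.ext
  exact congrFun (congrArg Subtype.val h) j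

lemma card_one (A : Type) [Fintype A] (T : A) (L : ℕ) :
    (L + 1) * (Fintype.card A - 1) ^ L ≤
      Nat.card {Y : Fin (L + 1) → A // ∃ p, Y p = T ∧ ∀ o, o ≠ p → Y o ≠ T} := by
  classical
  let E : Fin (L + 1) → Finset (Fin (L + 1) → A) := fun p =>
    Fintype.piFinset (fun o => if o = p then {T} else {T}ᶜ)
  have hE : ∀ p y, y ∈ E p ↔ y p = T ∧ ∀ o, o ≠ p → y o ≠ T := by
    intro p y
    rw [Fintype.mem_piFinset]
    constructor
    · intro h
      refine ⟨by have := h p; rwa [if_pos rfl, Finset.mem_singleton] at this, fun o ho => ?_⟩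
      have := h o
      rwa [if_neg ho, Finset.mem_compl, Finset.mem_singleton] at this
    · rintro ⟨h1, h2⟩ o
      split_ifs with h
      · rw [h, Finset.mem_singleton]
        exact h1
      · rw [Finset.mem_compl, Finset.mem_singleton]
        exact h2 o h
  have hcard : ∀ p, (E p).card = (Fintype.card A - 1) ^ L := by
    intro p
    rw [Fintype.card_piFinset]
    have h1 : ∀ o : Fin (L + 1), (if o = p then ({T} : Finset A) else {T}ᶜ).card =
        if o = p then 1 else Fintype.card A - 1 := by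
      intro o
      split_ifs
      · exact Finset.card_singleton _
      · rw [Finset.card_compl, Finset.card_singleton]
    simp only [h1]
    rw [Finset.prod_ite, Finset.prod_const, Finset.prod_const, one_pow, one_mul]
    congr 1
    rw [Finset.filter_ne' Finset.univ p, Finset.card_erase_of_mem (Finset.mem_univ _),
      Finset.card_univ, Fintype.card_fin]
    rfl
  have hdisj : ∀ p ∈ (Finset.univ : Finset (Fin (L + 1))), ∀ q ∈ (Finset.univ : Finset _),
      p ≠ q → Disjoint (E p) (E q) := by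
    intro p _ q _ hpq
    rw [Finset.disjoint_left]
    intro y hy hy'
    rw [hE] at hy hy'
    exact hy'.2 p hpq hy.1
  have h2 : ((Finset.univ : Finset (Fin (L + 1))).biUnion E).card =
      (L + 1) * (Fintype.card A - 1) ^ L := by
    rw [Finset.card_biUnion hdisj]
    simp only [hcard]
    rw [Finset.sum_const, Finset.card_univ, Fintype.card_fin, smul_eq_mul]
  rw [← h2, Nat.card_eq_fintype_card, Fintype.card_subtype]
  apply Finset.card_le_card
  intro y hy
  rw [Finset.mem_biUnion] at hy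
  obtain ⟨p, -, hp⟩ := hy
  rw [Finset.mem_filter]
  exact ⟨Finset.mem_univ _, p, (hE p y).1 hp⟩

lemma quarter_le (w : ℕ) (hw : 1 ≤ w) :
    1 / 4 ≤ ((2 : ℝ) ^ w - 1) ^ (2 ^ w) / ((2 : ℝ) ^ w) ^ (2 ^ w) := by
  obtain ⟨v, rfl⟩ : ∃ v, w = v + 1 := ⟨w - 1, by omega⟩
  rw [← div_pow]
  have hN : (0 : ℝ) < (2 : ℝ) ^ (v + 1) := by positivity
  have h1 : ((2 : ℝ) ^ (v + 1) - 1) / (2 : ℝ) ^ (v + 1) = 1 + (-(1 / (2 : ℝ) ^ (v + 1))) := by
    field_simp
    ring
  rw [h1]
  have h2 : (2 : ℕ) ^ (v + 1) = 2 ^ v * 2 := pow_succ 2 v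
  rw [h2, pow_mul]
  have h3 : (-2 : ℝ) ≤ -(1 / (2 : ℝ) ^ (v + 1)) := by
    have : 1 / (2 : ℝ) ^ (v + 1) ≤ 1 := by
      rw [div_le_one hN]
      exact one_le_pow₀ (by norm_num)
    linarith
  have h4 := one_add_mul_le_pow h3 (2 ^ v)
  have h5 : (1 : ℝ) + ((2 ^ v : ℕ) : ℝ) * (-(1 / (2 : ℝ) ^ (v + 1))) = 1 / 2 := by
    push_cast
    rw [pow_succ]
    field_simp
    norm_num
  rw [h5] at h4
  nlinarith

lemma prob_none (w : ℕ) (hw : 1 ≤ w) :
    1 / 4 ≤ prob (fun x : Fin (2 ^ w * w) → Bool =>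
      ∀ j < 2 ^ w, ∃ k < w, lft x (j * w + k) = true) := by
  refine le_trans (quarter_le w hw) (le_trans ?_ (rows_le (N := 2 ^ w) (w := w)
    (fun Y => ∀ j, Y j ≠ fun _ => false) _ ?_))
  · have h1 := card_none (Fin w → Bool) (fun _ => false) (2 ^ w)
    rw [Fintype.card_fun, Fintype.card_bool, Fintype.card_fin] at h1
    have h2 : ((2 ^ w - 1 : ℕ) : ℝ) = (2 : ℝ) ^ w - 1 := by
      rw [Nat.cast_sub (Nat.one_le_two_pow)]
      push_cast
      rfl
    gcongr
    rw [← h2]
    exact_mod_cast h1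
  · intro Y hY j hj
    have h1 := hY ⟨j, hj⟩
    by_contra hcon
    push Not at hcon
    apply h1
    funext k
    have h2 := hcon k k.2
    rw [lft_ofRows Y hj k.2] at h2
    simpa using h2

lemma prob_single (w : ℕ) (hw : 1 ≤ w) :
    1 / 4 ≤ prob (fun x : Fin (2 ^ w * w) → Bool =>
      ∃ p < 2 ^ w, (¬ ∃ k < w, lft x (p * w + k) = false) ∧
        ∀ j < 2 ^ w, j ≠ p → ∃ k < w, lft x (j * w + k) = false) := by
  refine le_trans ?_ (rows_le (N := 2 ^ w) (w := w)
    (fun Y => ∃ p, (Y p = fun _ => true) ∧ ∀ o, o ≠ p → Y o ≠ fun _ => true) _ ?_)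
  · obtain ⟨L, hL⟩ : ∃ L, 2 ^ w = L + 1 :=
      ⟨2 ^ w - 1, (Nat.sub_add_cancel Nat.one_le_two_pow).symm⟩
    have hL1 : 1 ≤ L := by
      have : 2 ^ 1 ≤ 2 ^ w := Nat.pow_le_pow_right (by norm_num) hw
      omega
    have h1 := card_one (Fin w → Bool) (fun _ => true) L
    rw [Fintype.card_fun, Fintype.card_bool, Fintype.card_fin] at h1
    have h2 : (2 : ℝ) ^ w = (L : ℝ) + 1 := by exact_mod_cast hL
    rw [h2]
    have h3 : (((L + 1) * L ^ L : ℕ) : ℝ) ≤
        (Nat.card {Y : Fin (2 ^ w) → Fin w → Bool //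
          ∃ p, (Y p = fun _ => true) ∧ ∀ o, o ≠ p → Y o ≠ fun _ => true} : ℝ) := by
      rw [hL]
      rw [hL, Nat.add_sub_cancel] at h1
      exact_mod_cast h1
    rw [hL]
    have hL0 : (0 : ℝ) < L := by exact_mod_cast hL1
    rw [le_div_iff₀ (by positivity)]
    rw [hL] at h3
    refine le_trans ?_ h3
    push_cast
    have h4 := third_le L hL1
    rw [pow_succ]
    have h5 : (0 : ℝ) < ((L : ℝ) + 1) ^ L := by positivity
    nlinarith
  · rintro Y ⟨p, hp, ho⟩
    refine ⟨p, p.2, ?_, ?_⟩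
    · rintro ⟨k, hk, h⟩
      rw [lft_ofRows Y p.2 hk, hp] at h
      exact absurd h (by simp)
    · intro j hj hjp
      by_contra hcon
      push Not at hcon
      apply ho ⟨j, hj⟩ (fun h => hjp (congrArg Fin.val h))
      funext k
      have h2 := hcon k k.2
      rw [lft_ofRows Y hj k.2] at h2
      simpa using h2

end Helper68.EDA
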