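import Pool.Agent.Helper68.EDA.Alg
import Pool.Agent.Helper68.DS.Final

set_option autoImplicit false
set_option linter.unusedSectionVars false

/-!
The programs over a monoid which has a regular product of idempotents which is not idempotent.
-/

namespace Helper68.EDA

open Helper68.DS

variable {M : Type} [Monoid M]

/-- The letters: blocks of length `w`, the bit `brk` inserts `g`. -/
def neg (e f g : M) (w : ℕ) (brk : Bool) (i : ℕ) (b : Bool) : M :=
  (if i % w = 0 then e * f else 1) * (if b = brk then g else 1) *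
    (if i % w + 1 = w then e else 1)

section block

variable {e f g : M} (he : e * e = e) (h1 : e * g = e) (h2 : f * g = g) {w : ℕ} {brk : Bool}
  {x : ℕ → Bool}

lemma seg_succ' {S : Type} (c : ℕ → S → M) (x : ℕ → S) {s i : ℕ} (h : s ≤ i) :
    seg c x s (i + 1) = seg c x s i * c i (x i) := by
  rw [← seg_mul c x h (Nat.le_succ i), Nat.succ_eq_add_one, seg_one]

open Classical in
include h1 h2 in
lemma block_aux (j : ℕ) : ∀ o, 1 ≤ o → o ≤ w →
    seg (neg e f g w brk) x (j * w) (j * w + o) =
      (if ∃ k < o, x (j * w + k) = brk then e else e * f) * (if o = w then e else 1) := by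
  have hefg : e * f * g = e := by rw [mul_assoc, h2, h1]
  intro o ho
  induction o, ho using Nat.le_induction with
  | base =>
    intro hw
    rw [seg_one]
    unfold neg
    have e1 : j * w % w = 0 := Nat.mul_mod_left j w
    rw [e1, if_pos rfl, zero_add]
    by_cases hx : x (j * w) = brk
    · have hex : ∃ k < 1, x (j * w + k) = brk := ⟨0, one_pos, hx⟩
      rw [if_pos hx, if_pos hex, hefg]
    · have hex : ¬ ∃ k < 1, x (j * w + k) = brk := by
        rintro ⟨k, hk, h⟩
        have : k = 0 := by omega
        subst this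
        exact hx h
      rw [if_neg hx, if_neg hex, mul_one]
  | succ o ho ih =>
    intro hw
    rw [← add_assoc, seg_succ' _ _ (Nat.le_add_right _ _), ih (by omega),
      if_neg (show ¬ o = w by omega), mul_one]
    unfold neg
    have e1 : (j * w + o) % w = o := by
      rw [Nat.mul_comm, Nat.mul_add_mod]
      exact Nat.mod_eq_of_lt (by omega)
    rw [e1, if_neg (show ¬ o = 0 by omega), one_mul, ← mul_assoc]
    congr 1
    by_cases hx : x (j * w + o) = brk
    · have hex : ∃ k < o + 1, x (j * w + k) = brk := ⟨o, Nat.lt_succ_self o, hx⟩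
      rw [if_pos hx, if_pos hex]
      split_ifs
      · exact h1
      · exact hefg
    · have hiff : (∃ k < o + 1, x (j * w + k) = brk) ↔ ∃ k < o, x (j * w + k) = brk := by
        constructor
        · rintro ⟨k, hk, h⟩
          rcases Nat.eq_or_lt_of_le (Nat.lt_succ_iff.1 hk) with h' | h'
          · rw [h'] at h
            exact absurd h hx
          · exact ⟨k, h', h⟩
        · rintro ⟨k, hk, h⟩
          exact ⟨k, by omega, h⟩
      rw [if_neg hx, mul_one]
      simp only [hiff]

open Classical in
include he h1 h2 in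
lemma block (hw : 1 ≤ w) (j : ℕ) :
    seg (neg e f g w brk) x (j * w) ((j + 1) * w) =
      if ∃ k < w, x (j * w + k) = brk then e else e * f * e := by
  rw [add_mul, one_mul, block_aux h1 h2 j w hw le_rfl, if_pos rfl]
  split_ifs
  · exact he
  · rfl

lemma blocks_succ (J : ℕ) : seg (neg e f g w brk) x 0 ((J + 1) * w) =
    seg (neg e f g w brk) x 0 (J * w) * seg (neg e f g w brk) x (J * w) ((J + 1) * w) := by
  rw [seg_mul _ _ (Nat.zero_le _)]
  apply Nat.mul_le_mul_right
  omega

include he h1 h2 in
lemma no_all (hw : 1 ≤ w) : ∀ J, (∀ j < J, ∃ k < w, x (j * w + k) = brk) →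
    1 ≤ J → seg (neg e f g w brk) x 0 (J * w) = e := by
  intro J
  induction J with
  | zero => intro _ h; omega
  | succ J ih =>
    intro h _
    rw [blocks_succ, block he h1 h2 hw, if_pos (h J (Nat.lt_succ_self J))]
    rcases Nat.eq_zero_or_pos J with hJ | hJ
    · rw [hJ, zero_mul, seg_self, one_mul]
    · rw [ih (fun j hj => h j (by omega)) hJ, he]

include he h1 h2 in
lemma one_all (hw : 1 ≤ w) {p : ℕ} (hp : ¬ ∃ k < w, x (p * w + k) = brk) : ∀ J,
    (∀ j < J, j ≠ p → ∃ k < w, x (j * w + k) = brk) →
    (J ≤ p → seg (neg e f g w brk) x 0 (J * w) * e = e) ∧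
    (p < J → seg (neg e f g w brk) x 0 (J * w) = e * f * e) := by
  intro J
  induction J with
  | zero =>
    intro _
    refine ⟨fun _ => ?_, fun h => by omega⟩
    rw [zero_mul, seg_self, one_mul]
  | succ J ih =>
    intro h
    obtain ⟨ih1, ih2⟩ := ih fun j hj => h j (by omega)
    rw [blocks_succ, block he h1 h2 hw]
    refine ⟨fun hJ => ?_, fun hJ => ?_⟩
    · rw [if_pos (h J (Nat.lt_succ_self J) (by omega)), mul_assoc, he]
      exact ih1 (by omega)
    · rcases Nat.eq_or_lt_of_le (Nat.lt_succ_iff.1 hJ) with h3 | h3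
      · rw [← h3, if_neg hp]
        have h4 := ih1 (by omega)
        rw [← h3] at h4
        calc seg (neg e f g w brk) x 0 (p * w) * (e * f * e) =
            (seg (neg e f g w brk) x 0 (p * w) * e) * f * e := by simp only [mul_assoc]
          _ = e * f * e := by rw [h4]
      · rw [if_pos (h J (Nat.lt_succ_self J) (by omega)), ih2 h3, mul_assoc (e * f), he]

include he h1 h2 in
lemma some_all (hw : 1 ≤ w) {p : ℕ} (hp : ¬ ∃ k < w, x (p * w + k) = brk) {J : ℕ} (hJ : p < J) :
    JLe (seg (neg e f g w brk) x 0 (J * w)) (e * f * e) := by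
  have h3 : seg (neg e f g w brk) x (p * w) ((p + 1) * w) = e * f * e := by
    rw [block he h1 h2 hw, if_neg hp]
  rw [← seg_mul _ _ (Nat.zero_le (p * w)) (Nat.mul_le_mul_right w hJ.le),
    ← seg_mul _ _ (Nat.mul_le_mul_right w (Nat.le_succ p)) (Nat.mul_le_mul_right w hJ),
    Nat.succ_eq_add_one, h3]
  exact ⟨_, _, (mul_assoc _ _ _).symm⟩

end block

/-- If the `J`-class of `e` contains `a = e a e` then some power of `a` is `e`. -/
lemma aper_eq [Finite M] (hap : ∀ x : M, ∃ k, x ^ (k + 1) = x ^ k) {e f : M} (he : e * e = e)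
    (h : JLe e (e * f * e)) : e * f * e = e := by
  set a := e * f * e with ha
  have hea : e * a = a := by rw [ha, ← mul_assoc, ← mul_assoc, he]
  have hae : a * e = a := by rw [ha, mul_assoc, he]
  obtain ⟨d, hd⟩ := stabR (q := e) (w := a) (by rw [hea]; exact h)
  rw [hea] at hd
  have h1 : a * (e * d) = e := by rw [← mul_assoc, hae, hd]
  have h2 : ∀ k, a ^ k * (e * d) ^ k * e = e := by
    intro k
    induction k with
    | zero => simp
    | succ k ih =>
      have h3 : e * (e * d) ^ k * e = (e * d) ^ k * e := by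
        cases k with
        | zero => simp [he]
        | succ k => rw [pow_succ', ← mul_assoc, ← mul_assoc, he]
      calc a ^ (k + 1) * (e * d) ^ (k + 1) * e
          = a ^ k * (a * (e * d)) * (e * d) ^ k * e := by
            rw [pow_succ, pow_succ']
            simp only [mul_assoc]
        _ = a ^ k * (e * (e * d) ^ k * e) := by rw [h1]; simp only [mul_assoc]
        _ = a ^ k * ((e * d) ^ k * e) := by rw [h3]
        _ = e := by rw [← mul_assoc, ih]
  obtain ⟨k, hk⟩ := hap a
  have h3 : a ^ (k + 1) * (e * d) ^ k * e = a := by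
    rw [pow_succ', mul_assoc, mul_assoc, ← mul_assoc (a ^ k), h2 k, hae]
  rw [hk, h2 k] at h3
  exact h3.symm

end Helper68.EDA
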