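import Mathlib

set_option autoImplicit false
set_option linter.unusedSectionVars false

/-!
Averages of measures transported by partial injections: outside a bounded set of times the heavy
states move bijectively and the other states carry little mass.
-/

namespace Helper68.EDA

open Finset

/-- The positive part of `x - a`. -/
noncomputable def pp (a x : ℝ) : ℝ := max (x - a) 0

lemma pp_nonneg (a x : ℝ) : 0 ≤ pp a x := le_max_right _ _

lemma pp_ge (a x : ℝ) : x - a ≤ pp a x := le_max_left _ _

lemma pp_zero {a : ℝ} (ha : 0 ≤ a) : pp a 0 = 0 := by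
  unfold pp
  rw [max_eq_right]
  linarith

lemma pp_le {a x : ℝ} (ha : 0 ≤ a) (hx : 0 ≤ x) : pp a x ≤ x := by
  unfold pp
  exact max_le (by linarith) hx

section avg

variable {S : Type} [Fintype S] [Nonempty S]

lemma card_pos' : (0 : ℝ) < Fintype.card S := by
  exact_mod_cast Fintype.card_pos (α := S)

/-- The average of a function. -/
noncomputable def avg (v : S → ℝ) : ℝ := (∑ c, v c) / Fintype.card S

lemma avg_mono {v w : S → ℝ} (h : ∀ c, v c ≤ w c) : avg v ≤ avg w := by
  unfold avg
  have := card_pos' (S := S)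
  gcongr with c
  exact h c

lemma avg_const (x : ℝ) : avg (fun _ : S => x) = x := by
  unfold avg
  rw [Finset.sum_const, Finset.card_univ, nsmul_eq_mul]
  have := card_pos' (S := S)
  field_simp

lemma le_avg {v : S → ℝ} {x : ℝ} (h : ∀ c, x ≤ v c) : x ≤ avg v := by
  rw [← avg_const (S := S) x]
  exact avg_mono h

lemma avg_le {v : S → ℝ} {x : ℝ} (h : ∀ c, v c ≤ x) : avg v ≤ x := by
  rw [← avg_const (S := S) x]
  exact avg_mono h

lemma avg_sub (v : S → ℝ) (x : ℝ) : avg (fun c => v c - x) = avg v - x := by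
  unfold avg
  rw [Finset.sum_sub_distrib, Finset.sum_const, Finset.card_univ, nsmul_eq_mul]
  have := card_pos' (S := S)
  field_simp

lemma avg_add (v w : S → ℝ) : avg (fun c => v c + w c) = avg v + avg w := by
  unfold avg
  rw [Finset.sum_add_distrib, add_div]

lemma avg_sum {Q : Type} [Fintype Q] (f : S → Q → ℝ) :
    ∑ r, avg (fun c => f c r) = avg (fun c => ∑ r, f c r) := by
  unfold avg
  rw [← Finset.sum_div, Finset.sum_comm]

lemma avg_single {v : S → ℝ} {x : ℝ} (h : ∀ c, 0 ≤ v c) (c₀ : S) (hc : x ≤ v c₀) :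
    x / Fintype.card S ≤ avg v := by
  unfold avg
  have := card_pos' (S := S)
  gcongr
  exact hc.trans (Finset.single_le_sum (fun c _ => h c) (Finset.mem_univ c₀))

/-- Convexity. -/
lemma pp_avg (a : ℝ) (v : S → ℝ) : pp a (avg v) ≤ avg (fun c => pp a (v c)) := by
  unfold pp
  apply max_le
  · rw [← avg_sub]
    exact avg_mono fun c => le_max_left _ _
  · exact le_avg fun c => le_max_right _ _

/-- Strict convexity across the kink. -/
lemma pp_avg_gap {θ : ℝ} (hθ : 0 ≤ θ) (v : S → ℝ) (c₀ c₁ : S) (h0 : θ ≤ v c₀)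
    (h1 : v c₁ ≤ θ / 4) :
    pp (θ / 2) (avg v) ≤ avg (fun c => pp (θ / 2) (v c)) - θ / (4 * Fintype.card S) := by
  have hs := card_pos' (S := S)
  have e1 : θ / (4 * Fintype.card S) = (θ / 4) / Fintype.card S := by
    field_simp
  rw [e1]
  unfold pp
  apply max_le
  · -- the average is large: use `c₁`
    have h2 : (θ / 4) / Fintype.card S ≤
        avg (fun c => pp (θ / 2) (v c) - (v c - θ / 2)) := by
      apply avg_single (fun c => by linarith [pp_ge (θ / 2) (v c)]) c₁
      have := pp_nonneg (θ / 2) (v c₁)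
      linarith
    have h3 : avg (fun c => pp (θ / 2) (v c)) = avg (fun c => pp (θ / 2) (v c) -
        (v c - θ / 2)) + avg (fun c => v c - θ / 2) := by
      rw [← avg_add]
      congr 1
      funext c
      ring
    unfold pp at h2 h3
    rw [h3, avg_sub]
    linarith
  · have h2 : (θ / 4) / Fintype.card S ≤ avg (fun c => pp (θ / 2) (v c)) := by
      apply avg_single (fun c => pp_nonneg _ _) c₀
      have := pp_ge (θ / 2) (v c₀)
      linarith
    unfold pp at h2
    linarith

end avg

section push

variable {Q S : Type} [Fintype Q] [Fintype S] [Nonempty S]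

open Classical in
/-- The transport of a measure by a partial map. -/
noncomputable def push (f : Q → Option Q) (μ : Q → ℝ) (r : Q) : ℝ :=
  ∑ q, if f q = some r then μ q else 0

variable {f : Q → Option Q} {μ : Q → ℝ}

lemma push_val (hf : ∀ q q' r, f q = some r → f q' = some r → q = q') {q r : Q}
    (h : f q = some r) : push f μ r = μ q := by
  classical
  unfold push
  rw [Finset.sum_eq_single q]
  · rw [if_pos h]
  · intro q' _ hne
    rw [if_neg]
    intro h'
    exact hne (hf q' q r h' h)
  · intro h'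
    exact absurd (Finset.mem_univ q) h'

lemma push_zero {r : Q} (h : ∀ q, f q ≠ some r) : push f μ r = 0 := by
  classical
  unfold push
  apply Finset.sum_eq_zero
  intro q _
  rw [if_neg (h q)]

lemma push_nonneg (hμ : ∀ q, 0 ≤ μ q) (r : Q) : 0 ≤ push f μ r := by
  classical
  unfold push
  apply Finset.sum_nonneg
  intro q _
  split_ifs
  · exact hμ q
  · exact le_rfl

open Classical in
lemma sum_push (hf : ∀ q q' r, f q = some r → f q' = some r → q = q') (φ : ℝ → ℝ)
    (h0 : φ 0 = 0) :
    ∑ r, φ (push f μ r) = ∑ q, if f q = none then 0 else φ (μ q) := by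
  have h1 : ∀ r, φ (push f μ r) = ∑ q, if f q = some r then φ (μ q) else 0 := by
    intro r
    by_cases h : ∃ q, f q = some r
    · obtain ⟨q, hq⟩ := h
      rw [push_val hf hq, Finset.sum_eq_single q]
      · rw [if_pos hq]
      · intro q' _ hne
        rw [if_neg]
        intro h'
        exact hne (hf q' q r h' hq)
      · intro h'
        exact absurd (Finset.mem_univ q) h'
    · push Not at h
      rw [push_zero h, h0]
      symm
      apply Finset.sum_eq_zero
      intro q _
      rw [if_neg (h q)]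
  simp only [h1]
  rw [Finset.sum_comm]
  apply Finset.sum_congr rfl
  intro q _
  rcases hq : f q with _ | r
  · simp
  · rw [if_neg (by simp), Finset.sum_eq_single r]
    · rw [if_pos rfl]
    · intro r' _ hne
      rw [if_neg]
      intro h'
      exact hne (Option.some_injective _ h').symm
    · intro h'
      exact absurd (Finset.mem_univ r) h'

/-- The potential. -/
noncomputable def pot (a : ℝ) (μ : Q → ℝ) : ℝ := ∑ q, pp a (μ q)

lemma pot_nonneg (a : ℝ) (μ : Q → ℝ) : 0 ≤ pot a μ := Finset.sum_nonneg fun _ _ => pp_nonneg _ _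

lemma pot_push_le {a : ℝ} (ha : 0 ≤ a)
    (hf : ∀ q q' r, f q = some r → f q' = some r → q = q') :
    ∑ r, pp a (push f μ r) ≤ pot a μ := by
  classical
  rw [sum_push hf (pp a) (pp_zero ha)]
  unfold pot
  apply Finset.sum_le_sum
  intro q _
  split_ifs
  · exact pp_nonneg _ _
  · exact le_rfl

lemma pot_push_killed {a : ℝ} (ha : 0 ≤ a)
    (hf : ∀ q q' r, f q = some r → f q' = some r → q = q') {q : Q} (hq : f q = none) :
    ∑ r, pp a (push f μ r) ≤ pot a μ - pp a (μ q) := by
  classical
  rw [sum_push hf (pp a) (pp_zero ha)]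
  unfold pot
  have h1 : (∑ q', if f q' = none then 0 else pp a (μ q')) ≤
      ∑ q', (pp a (μ q') - if q' = q then pp a (μ q) else 0) := by
    apply Finset.sum_le_sum
    intro q' _
    by_cases h : q' = q
    · rw [if_pos (by rw [h]; exact hq), if_pos h, h]
      linarith
    · rw [if_neg h, sub_zero]
      split_ifs
      · exact pp_nonneg _ _
      · exact le_rfl
  refine h1.trans ?_
  rw [Finset.sum_sub_distrib, Finset.sum_ite_eq' Finset.univ q, if_pos (Finset.mem_univ q)]

end push

section step

variable {Q S : Type} [Fintype Q] [Fintype S] [Nonempty S]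

/-- All letters move the states of mass at least `θ` bijectively onto the same set. -/
def Quiet (f : S → Q → Option Q) (μ : Q → ℝ) (θ : ℝ) : Prop :=
  (∀ c q, θ ≤ μ q → f c q ≠ none) ∧
    ∀ c c' q r, θ ≤ μ q → f c q = some r → ∃ q', θ ≤ μ q' ∧ f c' q' = some r

/-- There are no masses strictly between `η θ` and `θ`. -/
def Gap (μ : Q → ℝ) (θ η : ℝ) : Prop := ∀ q, θ ≤ μ q ∨ μ q ≤ η * θ

variable {f : S → Q → Option Q} {μ μ' : Q → ℝ}

lemma pot_mono {a : ℝ} (ha : 0 ≤ a)
    (hf : ∀ c q q' r, f c q = some r → f c q' = some r → q = q')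
    (hμ' : ∀ r, μ' r = avg fun c => push (f c) μ r) : pot a μ' ≤ pot a μ := by
  calc pot a μ' = ∑ r, pp a (avg fun c => push (f c) μ r) := by
        unfold pot
        simp only [hμ']
    _ ≤ ∑ r, avg fun c => pp a (push (f c) μ r) := Finset.sum_le_sum fun r _ => pp_avg a _
    _ = avg fun c => ∑ r, pp a (push (f c) μ r) := avg_sum _
    _ ≤ pot a μ := avg_le fun c => pot_push_le ha (hf c)

lemma pot_drop {θ η : ℝ} (hθ : 0 ≤ θ) (hη : η ≤ 1 / 4)
    (hf : ∀ c q q' r, f c q = some r → f c q' = some r → q = q')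
    (hμ' : ∀ r, μ' r = avg fun c => push (f c) μ r) (hgap : Gap μ θ η)
    (hnq : ¬ Quiet f μ θ) :
    pot (θ / 2) μ' ≤ pot (θ / 2) μ - θ / (4 * Fintype.card S) := by
  classical
  have hs := card_pos' (S := S)
  have hθ2 : 0 ≤ θ / 2 := by linarith
  have hstart : pot (θ / 2) μ' = ∑ r, pp (θ / 2) (avg fun c => push (f c) μ r) := by
    unfold pot
    simp only [hμ']
  rw [Quiet, not_and_or] at hnq
  rcases hnq with h | h
  · push Not at h
    obtain ⟨c, q, hq, hnone⟩ := h
    have h1 : pot (θ / 2) μ' ≤ avg fun c => ∑ r, pp (θ / 2) (push (f c) μ r) := by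
      rw [hstart, ← avg_sum]
      exact Finset.sum_le_sum fun r _ => pp_avg _ _
    have h2 : (θ / 2) / Fintype.card S ≤
        avg fun c => pot (θ / 2) μ - ∑ r, pp (θ / 2) (push (f c) μ r) := by
      apply avg_single (fun c => by linarith [pot_push_le (μ := μ) hθ2 (hf c)]) c
      have h3 := pot_push_killed (μ := μ) hθ2 (hf c) hnone
      have h4 := pp_ge (θ / 2) (μ q)
      linarith
    have h3 : avg (fun c => pot (θ / 2) μ - ∑ r, pp (θ / 2) (push (f c) μ r)) +
        avg (fun c => ∑ r, pp (θ / 2) (push (f c) μ r)) = pot (θ / 2) μ := by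
      rw [← avg_add, ← avg_const (S := S) (pot (θ / 2) μ)]
      congr 1
      funext c
      rw [avg_const]
      ring
    have h4 : θ / (4 * Fintype.card S) ≤ (θ / 2) / Fintype.card S := by
      rw [div_div]
      apply div_le_div_of_nonneg_left hθ (by positivity)
      nlinarith
    linarith
  · push Not at h
    obtain ⟨c, c', q, r, hq, hfr, hno⟩ := h
    have hc : θ ≤ push (f c) μ r := by
      rw [push_val (hf c) hfr]
      exact hq
    have hc' : push (f c') μ r ≤ θ / 4 := by
      by_cases hex : ∃ q', f c' q' = some r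
      · obtain ⟨q', hq'⟩ := hex
        rw [push_val (hf c') hq']
        rcases hgap q' with h1 | h1
        · exact absurd hq' (hno q' h1)
        · nlinarith
      · push Not at hex
        rw [push_zero hex]
        linarith
    have hr := pp_avg_gap hθ (fun c => push (f c) μ r) c c' hc hc'
    calc pot (θ / 2) μ' = ∑ r, pp (θ / 2) (avg fun c => push (f c) μ r) := hstart
      _ ≤ ∑ r', ((avg fun c => pp (θ / 2) (push (f c) μ r')) -
          if r' = r then θ / (4 * Fintype.card S) else 0) := by
          apply Finset.sum_le_sum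
          intro r' _
          by_cases hr' : r' = r
          · rw [if_pos hr', hr']
            exact hr
          · rw [if_neg hr', sub_zero]
            exact pp_avg _ _
      _ = (avg fun c => ∑ r', pp (θ / 2) (push (f c) μ r')) - θ / (4 * Fintype.card S) := by
          rw [Finset.sum_sub_distrib, avg_sum, Finset.sum_ite_eq' Finset.univ r,
            if_pos (Finset.mem_univ r)]
      _ ≤ pot (θ / 2) μ - θ / (4 * Fintype.card S) := by
          have := avg_le (v := fun c => ∑ r', pp (θ / 2) (push (f c) μ r'))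
            (fun c => pot_push_le (μ := μ) hθ2 (hf c))
          linarith

lemma quiet_heavy {θ : ℝ}
    (hf : ∀ c q q' r, f c q = some r → f c q' = some r → q = q')
    (hμ' : ∀ r, μ' r = avg fun c => push (f c) μ r)
    (hq : Quiet f μ θ) {c : S} {q r : Q} (h : θ ≤ μ q) (hfr : f c q = some r) : θ ≤ μ' r := by
  rw [hμ']
  apply le_avg
  intro c'
  obtain ⟨q', hq', hfr'⟩ := hq.2 c c' q r h hfr
  rw [push_val (hf c') hfr']
  exact hq'

lemma quiet_light {θ η : ℝ} (hη : 0 ≤ η * θ)
    (hf : ∀ c q q' r, f c q = some r → f c q' = some r → q = q')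
    (hμ' : ∀ r, μ' r = avg fun c => push (f c) μ r) (hgap : Gap μ θ η)
    {r : Q} (h : ∀ c q, θ ≤ μ q → f c q ≠ some r) : μ' r ≤ η * θ := by
  rw [hμ']
  apply avg_le
  intro c
  by_cases hex : ∃ q, f c q = some r
  · obtain ⟨q, hq⟩ := hex
    rw [push_val (hf c) hq]
    rcases hgap q with h1 | h1
    · exact absurd hq (h c q h1)
    · exact h1
  · push Not at hex
    rw [push_zero hex]
    exact hη

lemma quiet_gap {θ η : ℝ} (hη : 0 ≤ η * θ)
    (hf : ∀ c q q' r, f c q = some r → f c q' = some r → q = q')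
    (hμ' : ∀ r, μ' r = avg fun c => push (f c) μ r) (hgap : Gap μ θ η)
    (hq : Quiet f μ θ) : Gap μ' θ η := by
  intro r
  by_cases h : ∃ c q, θ ≤ μ q ∧ f c q = some r
  · obtain ⟨c, q, h1, h2⟩ := h
    exact Or.inl (quiet_heavy hf hμ' hq h1 h2)
  · push Not at h
    exact Or.inr (quiet_light hη hf hμ' hgap h)

lemma quiet_not_heavy {θ η : ℝ} (hη : 0 ≤ η * θ) (hlt : η * θ < θ)
    (hf : ∀ c q q' r, f c q = some r → f c q' = some r → q = q')
    (hμ' : ∀ r, μ' r = avg fun c => push (f c) μ r) (hgap : Gap μ θ η)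
    (hq : Quiet f μ θ) {c : S} {q r : Q} (h : ¬ θ ≤ μ q) (hfr : f c q = some r) :
    ¬ θ ≤ μ' r := by
  intro hr
  by_cases hex : ∃ c' q', θ ≤ μ q' ∧ f c' q' = some r
  · obtain ⟨c', q', h1, h2⟩ := hex
    obtain ⟨q'', h3, h4⟩ := hq.2 c' c q' r h1 h2
    have := hf c q'' q r h4 hfr
    rw [this] at h3
    exact h h3
  · push Not at hex
    have := quiet_light hη hf hμ' hgap hex
    linarith

end step

/-- Among more windows than masses there is a free one. -/
lemma exists_gap {Q : Type} [Fintype Q] (μ : Q → ℝ) {η : ℝ} (h0 : 0 < η) (h1 : η ≤ 1) :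
    ∃ j, j ≤ Fintype.card Q ∧ Gap μ (η ^ j) η := by
  classical
  by_contra hcon
  push Not at hcon
  have h2 : ∀ j : Fin (Fintype.card Q + 1), ∃ q, μ q < η ^ (j : ℕ) ∧ η ^ ((j : ℕ) + 1) < μ q := by
    intro j
    have h3 := hcon j (Nat.lt_succ_iff.1 j.2)
    unfold Gap at h3
    push Not at h3
    obtain ⟨q, hq1, hq2⟩ := h3
    exact ⟨q, hq1, by rw [pow_succ']; exact hq2⟩
  choose g hg1 hg2 using h2
  have hinj : Function.Injective g := by
    have hlt : ∀ i j : Fin (Fintype.card Q + 1), i < j → g i ≠ g j := by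
      intro i j hij heq
      have h3 : η ^ (j : ℕ) ≤ η ^ ((i : ℕ) + 1) := pow_le_pow_of_le_one h0.le h1 (by
        have : (i : ℕ) < (j : ℕ) := hij
        omega)
      have h4 := hg2 i
      have h5 := hg1 j
      rw [heq] at h4
      linarith
    intro i j heq
    rcases lt_trichotomy i j with h | h | h
    · exact absurd heq (hlt i j h)
    · exact h
    · exact absurd heq.symm (hlt j i h)
  have := Fintype.card_le_of_injective g hinj
  rw [Fintype.card_fin] at this
  omega

end Helper68.EDA
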